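import Mathlib
import Pool.Agent.Y91.G.Ten

/-!
# Two dual summands: tensor decompositions and the multiplicities of involutions
-/

set_option linter.unusedSectionVars false

namespace Pool.Agent.Y4.G

open Module LinearMap Pool.Agent.W548.Odd Pool.Agent.Y91.JP Pool.Agent.Y91.P Pool.Agent.Y91.G

variable {K : Type*} [Field K] [CharZero K] {V : Type*} [AddCommGroup V] [Module K V]
  [FiniteDimensional K V] {G I J : Submodule K (End K V)} {st : End K V →ₗ[K] End K V}
  (h : Setup G st) {ε : End K V} (b : Blk G st ε)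

include h b in
/-- Two commuting ideals which generate the Lie algebra. -/
theorem two_factor (hI : IsIdl G I) (hJ : IsIdl G J) (hJI : J ≤ cen G I) (hG : G ≤ I ⊔ J)
    {d d' : ℕ} [NeZero d] [NeZero d'] {e : Fin d → Fin d → End K V}
    (M : MUE (Algebra.adjoin K (I : Set (End K V))) ε e) {e' : Fin d' → Fin d' → End K V}
    (M' : MUE (Algebra.adjoin K (J : Set (End K V))) ε e') :
    d * d' = rk ε ∧
      (∀ q ∈ Algebra.adjoin K (I : Set (End K V)), ε * q = q → q * q = q → d' ∣ rk q) ∧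
      ∀ q ∈ Algebra.adjoin K (J : Set (End K V)), ε * q = q → q * q = q → d ∣ rk q := by
  have hcm : ∀ z ∈ J, ∀ x ∈ I, z * x = x * z := fun z hz x hx => (hJI hz).2 x hx
  obtain ⟨A, hA⟩ : ∃ A, A = Algebra.adjoin K (I : Set (End K V)) := ⟨_, rfl⟩
  obtain ⟨B, hB⟩ : ∃ B, B = Algebra.adjoin K (J : Set (End K V)) := ⟨_, rfl⟩
  obtain ⟨C, hC⟩ : ∃ C, C = Algebra.adjoin K ((I ⊔ J : Submodule K (End K V)) :
    Set (End K V)) := ⟨_, rfl⟩
  have hAC : A ≤ C := by
    rw [hA, hC]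
    exact Algebra.adjoin_mono fun x hx => Submodule.mem_sup_left hx
  have hBC : B ≤ C := by
    rw [hB, hC]
    exact Algebra.adjoin_mono fun x hx => Submodule.mem_sup_right hx
  have hc : ∀ a ∈ A, ∀ b ∈ B, a * b = b * a := by
    intro a ha b hb
    rw [hA] at ha
    rw [hB] at hb
    exact (comm_adjoin' hcm ha hb).symm
  have hεA : ∀ a ∈ A, ε * a = a * ε := by
    intro a ha
    rw [hA] at ha
    exact adj_comm h b hI ha
  have hεB : ∀ a ∈ B, ε * a = a * ε := by
    intro a ha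
    rw [hB] at ha
    exact adj_comm h b hJ ha
  have hεC : ∀ a ∈ C, ε * a = a * ε := by
    intro a ha
    rw [hC] at ha
    refine comm_adjoin (fun x hx => b.comm x ?_) ha
    obtain ⟨u, hu, v, hv, rfl⟩ := Submodule.mem_sup.1 hx
    exact G.add_mem (hI.le hu) (hJ.le hv)
  have heA : ∀ i j, e i j ∈ A := fun i j => hA ▸ M.mem i j
  have heB : ∀ i j, e' i j ∈ B := fun i j => hB ▸ M'.mem i j
  have hee : e 0 0 * e 0 0 = e 0 0 := by rw [M.mul, if_pos rfl]
  have hee' : e' 0 0 * e' 0 0 = e' 0 0 := by rw [M'.mul, if_pos rfl]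
  have hprod : ∀ a ∈ A, ∀ b ∈ B, ∀ a' ∈ A, ∀ b' ∈ B, a * b * (a' * b') = a * a' * (b * b') := by
    intro a ha b hb a' ha' b' hb'
    rw [mul_assoc, ← mul_assoc b, ← hc a' ha' b hb]
    noncomm_ring
  -- divisibility
  have hd1 : ∀ q ∈ A, ε * q = q → q * q = q → rk q = d' * rk (q * e' 0 0) := by
    intro q hq hεq hqq
    have hff : q * e' 0 0 * (q * e' 0 0) = q * e' 0 0 := by
      rw [hprod q hq _ (heB 0 0) q hq _ (heB 0 0), hqq, hee']
    have h1 := M'.tr 0 (f := q) fun x hx => hc q hq x (hB ▸ hx)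
    rw [← hεA q hq, hεq, trace_idem hqq, trace_idem hff] at h1
    exact_mod_cast h1
  have hd2 : ∀ q ∈ B, ε * q = q → q * q = q → rk q = d * rk (q * e 0 0) := by
    intro q hq hεq hqq
    have hff : q * e 0 0 * (q * e 0 0) = q * e 0 0 := by
      have h2 : q * e 0 0 = e 0 0 * q := (hc _ (heA 0 0) q hq).symm
      rw [h2, hprod _ (heA 0 0) q hq _ (heA 0 0) q hq, hqq, hee]
    have h1 := M.tr 0 (f := q) fun x hx => (hc x (hA ▸ hx) q hq).symm
    rw [← hεB q hq, hεq, trace_idem hqq, trace_idem hff] at h1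
    exact_mod_cast h1
  refine ⟨?_, fun q hq hεq hqq => ?_, fun q hq hεq hqq => ?_⟩
  rotate_left
  · exact ⟨_, hd1 q (hA ▸ hq) hεq hqq⟩
  · exact ⟨_, hd2 q (hB ▸ hq) hεq hqq⟩
  -- the product of the minimal idempotents
  obtain ⟨f, hf⟩ : ∃ f, f = e 0 0 * e' 0 0 := ⟨_, rfl⟩
  have hfC : f ∈ C := by
    rw [hf]
    exact C.mul_mem (hAC (heA 0 0)) (hBC (heB 0 0))
  have hff : f * f = f := by
    rw [hf, hprod _ (heA 0 0) _ (heB 0 0) _ (heA 0 0) _ (heB 0 0), hee, hee']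
  have hεf : ε * f = f := by
    rw [hf, ← mul_assoc, M.εmul]
  have hr1 : rk (e 0 0) = d' * rk f := by
    rw [hf]
    exact hd1 _ (heA 0 0) (M.εmul 0 0) hee
  have hr2 : rk ε = d * rk (e 0 0) := by
    have h1 := M.tr 0 (f := 1) fun x _ => by rw [one_mul, mul_one]
    rw [one_mul, one_mul, trace_idem hee, trace_idem b.idem] at h1
    exact_mod_cast h1
  have hrε : rk ε ≠ 0 := fun h0 => b.ne (rk_eq_zero h0)
  have hf0 : f ≠ 0 := by
    intro h0
    rw [hr2, hr1, h0, rk_zero, mul_zero, mul_zero] at hrε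
    exact hrε rfl
  have hmin : ∀ x ∈ C, ∃ c : K, f * x * f = c • f := by
    intro x hx
    rw [hC] at hx
    have h1 := adjoin_sup hcm hx
    rw [← hA, ← hB] at h1
    refine Submodule.mul_induction_on (C := fun x => ∃ c : K, f * x * f = c • f) h1
      (fun a ha b hb => ?_) fun x y hx hy => ?_
    · have ha' : a ∈ A := ha
      have hb' : b ∈ B := hb
      obtain ⟨c, hc'⟩ := M.min 0 (x := a) (hA ▸ ha')
      obtain ⟨c', hc''⟩ := M'.min 0 (x := b) (hB ▸ hb')
      refine ⟨c * c', ?_⟩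
      rw [hf, hprod _ (heA 0 0) _ (heB 0 0) a ha' b hb',
        hprod (e 0 0 * a) (A.mul_mem (heA 0 0) ha') (e' 0 0 * b) (B.mul_mem (heB 0 0) hb') _
          (heA 0 0) _ (heB 0 0), hc', hc'', smul_mul_smul_comm]
    · obtain ⟨c, hc'⟩ := hx
      obtain ⟨c', hc''⟩ := hy
      exact ⟨c + c', by rw [mul_add, add_mul, hc', hc'', add_smul]⟩
  obtain ⟨v, hv⟩ : ∃ v, f v ≠ 0 := by
    by_contra hcon
    push Not at hcon
    exact hf0 (LinearMap.ext hcon)
  obtain ⟨w, hw⟩ : ∃ w, w = f v := ⟨_, rfl⟩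
  have hw0 : w ≠ 0 := by rwa [hw]
  have hfw : f w = w := by
    rw [hw]
    exact LinearMap.congr_fun hff v
  have hεw : ε w = w := by
    rw [hw]
    exact LinearMap.congr_fun hεf v
  let W : Submodule K V :=
    { carrier := {u | ∃ a ∈ C, a w = u}
      zero_mem' := ⟨0, zero_mem _, rfl⟩
      add_mem' := by
        rintro _ _ ⟨a, ha, rfl⟩ ⟨b, hb, rfl⟩
        exact ⟨a + b, add_mem ha hb, rfl⟩
      smul_mem' := by
        rintro c _ ⟨a, ha, rfl⟩
        exact ⟨c • a, Subalgebra.smul_mem _ ha c, rfl⟩ }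
  have hW : ∀ x, ε x = x → x ∈ W := by
    intro x hx
    refine b.irr h (M := W) ?_ ?_ ?_ hx
    · rintro y hy _ ⟨a, ha, rfl⟩
      refine ⟨y * a, mul_mem ?_ ha, rfl⟩
      rw [hC]
      exact Algebra.subset_adjoin (hG hy)
    · rintro _ ⟨a, ha, rfl⟩
      have h2 := LinearMap.congr_fun (hεC a ha) w
      rw [Module.End.mul_apply, Module.End.mul_apply, hεw] at h2
      exact h2
    · intro h0
      have h2 : w ∈ W := ⟨1, one_mem _, rfl⟩
      rw [h0] at h2
      exact hw0 h2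
  have hline : ∀ x, ∃ c : K, f x = c • w := by
    intro x
    have h2 : ε x ∈ W := hW _ (LinearMap.congr_fun b.idem x)
    obtain ⟨a, ha, hax⟩ := h2
    obtain ⟨c, hc⟩ := hmin a ha
    refine ⟨c, ?_⟩
    have h3 := LinearMap.congr_fun hc w
    change f (a (f w)) = c • f w at h3
    rw [hfw, hax] at h3
    rw [← h3]
    have h4 := LinearMap.congr_fun (hεC f hfC) x
    rw [hεf] at h4
    exact h4
  have hrk : rk f = 1 := by
    have h2 : rk f ≤ 1 := by
      unfold rk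
      calc finrank K (LinearMap.range f) ≤ finrank K (Submodule.span K {w}) := by
            refine Submodule.finrank_mono ?_
            rintro _ ⟨x, rfl⟩
            obtain ⟨c, hc⟩ := hline x
            rw [hc]
            exact Submodule.smul_mem _ _ (Submodule.mem_span_singleton_self w)
      _ ≤ 1 := (finrank_span_singleton hw0).le
    have h3 : rk f ≠ 0 := fun h0 => hf0 (rk_eq_zero h0)
    omega
  rw [hr2, hr1, hrk, mul_one]

/-- The idempotent of an involution. -/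
theorem idem_of {D : End K V} (hD2 : D * D = 1) (hc : ε * D = D * ε) (hε : ε * ε = ε) :
    ε * ((2 : K)⁻¹ • (ε * (1 + D))) = (2 : K)⁻¹ • (ε * (1 + D)) ∧
      ((2 : K)⁻¹ • (ε * (1 + D))) * ((2 : K)⁻¹ • (ε * (1 + D))) = (2 : K)⁻¹ • (ε * (1 + D)) := by
  refine ⟨by rw [mul_smul_comm, ← mul_assoc, hε], ?_⟩
  have e1 : (ε * (1 + D)) * (ε * (1 + D)) = (2 : K) • (ε * (1 + D)) := by
    have e2 : (1 + D) * ε = ε * (1 + D) := by
      rw [add_mul, mul_add, one_mul, mul_one, hc]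
    have e3 : (1 + D) * (1 + D) = (2 : K) • (1 + D) := by
      rw [two_smul]
      calc (1 + D) * (1 + D) = 1 + D + D + D * D := by noncomm_ring
      _ = _ := by rw [hD2]; abel
    calc (ε * (1 + D)) * (ε * (1 + D)) = ε * ((1 + D) * ε) * (1 + D) := by noncomm_ring
    _ = (ε * ε) * ((1 + D) * (1 + D)) := by rw [e2]; noncomm_ring
    _ = _ := by rw [hε, e3, mul_smul_comm]
  rw [smul_mul_smul_comm, e1, smul_smul]
  congr 1
  rw [mul_assoc, inv_mul_cancel₀ two_ne_zero, mul_one]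

/-- The greatest common divisor of the multiplicities of an involution on the first summand. -/
noncomputable def gd (ε D : End K V) : ℕ := Nat.gcd (rk (ε * (1 + D))) (rk (ε * (1 - D)))

include h b in
/-- If the dimension does not divide the products of the greatest common divisors of the
multiplicities then a nonscalar involution generates the Lie algebra as an ideal up to the
centre. -/
theorem single_gcd [IsAlgClosed K] {S : Set (End K V)} (hS : ∀ D ∈ S, D ∈ G ∧ D * D = 1)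
    (hgen : ∀ L : Submodule K (End K V), S ⊆ L → ε - (1 - ε) ∈ L →
      (∀ y ∈ L, ∀ z ∈ L, y * z - z * y ∈ L) → G ≤ L)
    {D₀ : End K V} (hD₀ : D₀ ∈ G) (hD₀2 : D₀ * D₀ = 1)
    (hgcd : ∀ D ∈ S, (∀ s : K, D ≠ s • (ε - (1 - ε))) → ¬rk ε ∣ gd ε D₀ * gd ε D) :
    G ≤ JD G ε D₀ := by
  have hI := jd_idl h b hD₀
  have hθI : ε - (1 - ε) ∈ JD G ε D₀ := th_mem_jd D₀
  by_cases hall : ∀ D ∈ S, D ∈ JD G ε D₀
  · exact hgen _ hall hθI fun y hy z hz => hI.br y (hI.le hy) z hz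
  exfalso
  push Not at hall
  obtain ⟨D, hDS, hDI⟩ := hall
  obtain ⟨hD, hD2⟩ := hS D hDS
  have hDc : D ∈ cen G (JD G ε D₀) := (b.dich h hI hθI hD hD2).resolve_left hDI
  have hJ := cen_idl h hI
  have hθJ : ε - (1 - ε) ∈ cen G (JD G ε D₀) := ⟨b.th, fun z hz => by
    rw [mul_sub, sub_mul, b.comm z (hI.le hz), b.comm' z (hI.le hz)]⟩
  have hne : ∀ s : K, D ≠ s • (ε - (1 - ε)) := by
    intro s hs
    exact hDI (hs ▸ Submodule.smul_mem _ s hθI)
  obtain ⟨d, hd, e, M⟩ := idl_mue h b hI hθI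
  obtain ⟨d', hd', e', M'⟩ := idl_mue h b hJ hθJ
  have hG : G ≤ JD G ε D₀ ⊔ cen G (JD G ε D₀) := by
    intro y hy
    obtain ⟨u, hu, v, hv, rfl⟩ := b.decomp h hI hθI hy
    exact Submodule.add_mem_sup hu hv
  obtain ⟨t1, t2, t3⟩ := two_factor h b hI hJ le_rfl hG M M'
  have hmem : ∀ {I : Submodule K (End K V)} {D : End K V}, ε - (1 - ε) ∈ I → D ∈ I →
      (2 : K)⁻¹ • (ε * (1 + D)) ∈ Algebra.adjoin K (I : Set (End K V)) := fun hθ hD =>
    Subalgebra.smul_mem _ (mul_mem (eps_mem (Algebra.subset_adjoin hθ))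
      (add_mem (one_mem _) (Algebra.subset_adjoin hD))) _
  have hrk : ∀ D : End K V, rk ((2 : K)⁻¹ • (ε * (1 + D))) = rk (ε * (1 + D)) := fun D =>
    rk_smul (inv_ne_zero two_ne_zero) _
  have key : ∀ {I : Submodule K (End K V)} {m : ℕ} {D : End K V}, D ∈ G → D * D = 1 →
      ε - (1 - ε) ∈ I → D ∈ I → (∀ q ∈ Algebra.adjoin K (I : Set (End K V)), ε * q = q →
        q * q = q → m ∣ rk q) → m ∣ gd ε D := by
    intro I m D hD hD2 hθ hDI hm
    have h1 := idem_of hD2 (b.comm D hD) b.idem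
    have h2 := hm _ (hmem hθ hDI) h1.1 h1.2
    have hD' : -D ∈ I := I.neg_mem hDI
    have hD2' : (-D) * (-D) = 1 := by rw [neg_mul_neg, hD2]
    have h3 := idem_of hD2' (b.comm (-D) (G.neg_mem hD)) b.idem
    have h4 := hm _ (hmem hθ hD') h3.1 h3.2
    rw [hrk] at h2 h4
    rw [← sub_eq_add_neg] at h4
    exact Nat.dvd_gcd h2 h4
  refine hgcd D hDS hne ?_
  rw [← t1, mul_comm d]
  exact Nat.mul_dvd_mul (key hD₀ hD₀2 hθI (mem_jd D₀) t2) (key hD hD2 hθJ hDc t3)

end Pool.Agent.Y4.G
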