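import Mathlib

/-!
# Traces of idempotent operators on matrices
-/

namespace Pool.Agent.Y4.G

open Matrix Module

set_option linter.unusedSectionVars false

variable {B : Type*} [Fintype B] [DecidableEq B]

/-- The trace of an idempotent operator is the dimension of its range. -/
theorem trace_idemOp {V : Type*} [AddCommGroup V] [Module ℂ V] [FiniteDimensional ℂ V]
    {T : V →ₗ[ℂ] V} (h : ∀ x, T (T x) = T x) :
    LinearMap.trace ℂ V T = (finrank ℂ (LinearMap.range T) : ℂ) := by
  have h1 : IsIdempotentElem T := LinearMap.ext h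
  exact (LinearMap.IsIdempotentElem.isProj_range _ h1).trace

theorem finrank_eq_one_of {V : Type*} [AddCommGroup V] [Module ℂ V] [FiniteDimensional ℂ V]
    (S : Submodule ℂ V) {e : V} (he : e ∈ S) (he0 : e ≠ 0) (h : ∀ x ∈ S, ∃ c : ℂ, x = c • e) :
    finrank ℂ S = 1 := by
  have h1 : S = Submodule.span ℂ {e} := by
    apply le_antisymm
    · intro x hx
      obtain ⟨c, rfl⟩ := h x hx
      exact Submodule.smul_mem _ _ (Submodule.mem_span_singleton_self e)
    · rw [Submodule.span_singleton_le_iff_mem]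
      exact he
  rw [h1]
  exact finrank_span_singleton he0

theorem finrank_le_of_maps {V V1 V2 : Type*} [AddCommGroup V] [Module ℂ V]
    [FiniteDimensional ℂ V] [AddCommGroup V1] [Module ℂ V1] [FiniteDimensional ℂ V1]
    [AddCommGroup V2] [Module ℂ V2] [FiniteDimensional ℂ V2] (S : Submodule ℂ V)
    (f : V →ₗ[ℂ] V1) (g : V →ₗ[ℂ] V2) (S1 : Submodule ℂ V1) (S2 : Submodule ℂ V2)
    (hf : ∀ x ∈ S, f x ∈ S1) (hg : ∀ x ∈ S, g x ∈ S2)
    (h : ∀ x ∈ S, f x = 0 → g x = 0 → x = 0) : finrank ℂ S ≤ finrank ℂ S1 + finrank ℂ S2 := by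
  let Φ : S →ₗ[ℂ] S1 × S2 :=
    LinearMap.prod ((f.domRestrict S).codRestrict S1 fun x => hf x x.2)
      ((g.domRestrict S).codRestrict S2 fun x => hg x x.2)
  have hinj : Function.Injective Φ := by
    rw [← LinearMap.ker_eq_bot, LinearMap.ker_eq_bot']
    intro x hx
    have h1 : f x = 0 := congrArg (fun z : S1 × S2 => (z.1 : V1)) hx
    have h2 : g x = 0 := congrArg (fun z : S1 × S2 => (z.2 : V2)) hx
    exact Subtype.ext (h x x.2 h1 h2)
  have h1 := LinearMap.finrank_le_finrank_of_injective hinj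
  rwa [Module.finrank_prod] at h1

/-- The trace of an idempotent matrix. -/
theorem trace_idemM {P : Matrix B B ℂ} (h : P * P = P) :
    trace P = (finrank ℂ (LinearMap.range (mulVecLin P)) : ℂ) := by
  have h1 : IsIdempotentElem (mulVecLin P) := by
    change (mulVecLin P) ∘ₗ (mulVecLin P) = mulVecLin P
    rw [← mulVecLin_mul, h]
  have h2 := (LinearMap.IsIdempotentElem.isProj_range _ h1).trace
  rw [← h2, ← Matrix.toLin'_apply', Matrix.trace_toLin'_eq]

/-- The operator which multiplies from both sides. -/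
noncomputable def lr (P Q : Matrix B B ℂ) : Matrix B B ℂ →ₗ[ℂ] Matrix B B ℂ where
  toFun X := P * X * Q
  map_add' X Y := by rw [mul_add, add_mul]
  map_smul' c X := by rw [Matrix.mul_smul, Matrix.smul_mul, RingHom.id_apply]

theorem lr_apply (P Q X : Matrix B B ℂ) : lr P Q X = P * X * Q := rfl

theorem trace_lr (P Q : Matrix B B ℂ) :
    LinearMap.trace ℂ (Matrix B B ℂ) (lr P Q) = trace P * trace Q := by
  rw [LinearMap.trace_eq_matrix_trace ℂ (Matrix.stdBasis ℂ B B)]
  rw [Matrix.trace, Matrix.trace, Matrix.trace, Finset.sum_mul_sum, Fintype.sum_prod_type]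
  refine Finset.sum_congr rfl fun i _ => Finset.sum_congr rfl fun j _ => ?_
  rw [diag_apply, diag_apply, diag_apply, LinearMap.toMatrix_apply]
  have h1 : Matrix.stdBasis ℂ B B (i, j) = Matrix.single i j (1 : ℂ) := by
    rw [Matrix.stdBasis_eq_single]
  have h2 : ∀ X : Matrix B B ℂ, (Matrix.stdBasis ℂ B B).repr X (i, j) = X i j := by
    intro X
    rfl
  rw [h1, h2, lr_apply]
  rw [Matrix.mul_apply, Finset.sum_eq_single j]
  · rw [Matrix.mul_apply, Finset.sum_eq_single i]
    · simp
    · intro k _ hk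
      simp [hk.symm]
    · simp
  · intro k _ hk
    rw [Matrix.mul_apply, Finset.sum_eq_zero, zero_mul]
    intro l _
    simp [hk.symm]
  · simp

/-- The dimension of a corner. -/
theorem finrank_lr {P Q : Matrix B B ℂ} (hP : P * P = P) (hQ : Q * Q = Q) :
    (finrank ℂ (LinearMap.range (lr P Q)) : ℂ) = trace P * trace Q := by
  rw [← trace_lr, trace_idemOp]
  intro X
  rw [lr_apply, lr_apply]
  calc P * (P * X * Q) * Q = (P * P) * X * (Q * Q) := by noncomm_ring
  _ = P * X * Q := by rw [hP, hQ]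

theorem mem_lr {P Q X : Matrix B B ℂ} (hP : P * P = P) (hQ : Q * Q = Q) :
    X ∈ LinearMap.range (lr P Q) ↔ P * X = X ∧ X * Q = X := by
  constructor
  · rintro ⟨Y, rfl⟩
    rw [lr_apply]
    exact ⟨by rw [← mul_assoc, ← mul_assoc, hP], by rw [mul_assoc _ Q Q, hQ]⟩
  · rintro ⟨h1, h2⟩
    exact ⟨X, by rw [lr_apply, h1, h2]⟩

/-- A product has smaller rank if a vector in the range of the second factor is killed. -/
theorem rank_mul_lt {N e : Matrix B B ℂ} {v : B → ℂ} (hv : v ∈ LinearMap.range (mulVecLin e))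
    (hv0 : v ≠ 0) (h : N *ᵥ v = 0) : (N * e).rank < e.rank := by
  let U := LinearMap.range (mulVecLin e)
  let f : U →ₗ[ℂ] (B → ℂ) := (mulVecLin N).domRestrict U
  have h1 : LinearMap.range (mulVecLin (N * e)) = LinearMap.range f := by
    rw [mulVecLin_mul, LinearMap.range_comp]
    ext x
    constructor
    · rintro ⟨y, hy, rfl⟩
      exact ⟨⟨y, hy⟩, rfl⟩
    · rintro ⟨⟨y, hy⟩, rfl⟩
      exact ⟨y, hy, rfl⟩
  have h2 := LinearMap.finrank_range_add_finrank_ker f
  have h3 : 0 < finrank ℂ (LinearMap.ker f) := by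
    have hmem : (⟨v, hv⟩ : U) ∈ LinearMap.ker f := by
      rw [LinearMap.mem_ker]
      exact h
    by_contra h0
    have h3 : finrank ℂ (LinearMap.ker f) = 0 := by omega
    rw [Submodule.finrank_eq_zero] at h3
    rw [h3, Submodule.mem_bot] at hmem
    exact hv0 (congrArg Subtype.val hmem)
  change finrank ℂ (LinearMap.range (mulVecLin (N * e))) < finrank ℂ U
  rw [h1]
  omega

/-- Eigenvectors in the range. -/
theorem exists_eig_range {N e : Matrix B B ℂ} (he : e ≠ 0)
    (h : ∀ v ∈ LinearMap.range (mulVecLin e), N *ᵥ v ∈ LinearMap.range (mulVecLin e)) :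
    ∃ (μ : ℂ) (v : B → ℂ), v ∈ LinearMap.range (mulVecLin e) ∧ v ≠ 0 ∧ N *ᵥ v = μ • v := by
  let U := LinearMap.range (mulVecLin e)
  have hU : U ≠ ⊥ := by
    intro h1
    apply he
    rw [LinearMap.range_eq_bot] at h1
    apply Matrix.toLin'.injective
    rw [map_zero]
    exact h1
  have hnt : Nontrivial U := Submodule.nontrivial_iff_ne_bot.2 hU
  let f : U →ₗ[ℂ] U := (mulVecLin N).restrict h
  obtain ⟨μ, hμ⟩ := Module.End.exists_eigenvalue f
  obtain ⟨v, hv⟩ := hμ.exists_hasEigenvector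
  refine ⟨μ, v, v.2, fun h0 => hv.2 (Subtype.ext h0), ?_⟩
  have h1 := hv.apply_eq_smul
  exact congrArg Subtype.val h1

end Pool.Agent.Y4.G
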