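import Mathlib
import Pool.Agent.Y4.G.Tr

/-!
# Triple systems of matrices of coprime format

A linear space of matrices which is closed under the triple product `x yᴴ z + z yᴴ x`, whose
quadratic Casimir elements are scalars and whose format `(a, b)` is coprime, consists of all
matrices of this format.
-/

set_option linter.unusedSectionVars false

namespace Pool.Agent.Y4.G

open Matrix Module

open scoped ComplexOrder

variable {B : Type*} [Fintype B] [DecidableEq B]

theorem arith {a b d m k : ℕ} (hcop : Nat.Coprime a b) (hm : 1 ≤ m) (_hd : 1 ≤ d)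
    (hk : k + 2 * m ≤ a + b) (h : a * b * (2 + k) = d * (b * m + a * m)) : d = a * b := by
  have h1 : d * (b * m + a * m) = d * m * (a + b) := by ring
  rw [h1] at h
  have hab : Nat.Coprime (a + b) (a * b) := by
    refine Nat.Coprime.mul_right ?_ ?_
    · rw [Nat.coprime_self_add_left]
      exact hcop.symm
    · rw [Nat.coprime_add_self_left]
      exact hcop
  have h2 : (a + b) ∣ a * b * (2 + k) := ⟨d * m, by rw [h]; ring⟩
  have h3 : (a + b) ∣ (2 + k) := hab.dvd_of_dvd_mul_left h2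
  have h4 : a + b ≤ 2 + k := Nat.le_of_dvd (by omega) h3
  have hm1 : m = 1 := by omega
  subst hm1
  have hk1 : 2 + k = a + b := by omega
  rw [hk1, mul_one] at h
  exact (Nat.eq_of_mul_eq_mul_right (by omega) h).symm

/-- A triple system in a corner of the matrix algebra. -/
structure Tri (W : Submodule ℂ (Matrix B B ℂ)) (P Q : Matrix B B ℂ) (a b : ℕ) : Prop where
  PP : P * P = P
  QQ : Q * Q = Q
  PH : Pᴴ = P
  QH : Qᴴ = Q
  le : ∀ x ∈ W, P * x = x ∧ x * Q = x
  tri : ∀ x ∈ W, ∀ y ∈ W, ∀ z ∈ W, x * yᴴ * z + z * yᴴ * x ∈ W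
  trP : trace P = a
  trQ : trace Q = b
  cas : ∀ (p q : Matrix B B ℂ) (T : W →ₗ[ℂ] W), P * p = p → q * Q = q →
    (∀ x : W, ((T x : W) : Matrix B B ℂ) = p * x + x * q) →
    (a * b : ℂ) * LinearMap.trace ℂ W T = (finrank ℂ W : ℂ) * (b * trace p + a * trace q)

/-- A minimal tripotent, up to a factor. -/
structure Mini (W : Submodule ℂ (Matrix B B ℂ)) (e : Matrix B B ℂ) (t : ℂ) : Prop where
  mem : e ∈ W
  ne : e ≠ 0
  t0 : t ≠ 0
  st : star t = t
  eee : e * eᴴ * e = t • e
  one : ∀ x ∈ W, (t⁻¹ • (e * eᴴ)) * x * (t⁻¹ • (eᴴ * e)) = x → ∃ c : ℂ, x = c • e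

theorem mulConj_ne {e : Matrix B B ℂ} (he : e ≠ 0) : e * eᴴ ≠ 0 := by
  intro h
  exact he (Matrix.self_mul_conjTranspose_eq_zero.1 h)

variable {W : Submodule ℂ (Matrix B B ℂ)} {P Q : Matrix B B ℂ} {a b : ℕ}

theorem exists_mini
    (tri : ∀ x ∈ W, ∀ y ∈ W, ∀ z ∈ W, x * yᴴ * z + z * yᴴ * x ∈ W) (hW : W ≠ ⊥) :
    ∃ e t, Mini W e t := by
  obtain ⟨e, ⟨he, he0⟩, hmin⟩ : ∃ e, (e ∈ W ∧ e ≠ 0) ∧ ∀ y, (y ∈ W ∧ y ≠ 0) → e.rank ≤ y.rank := by
    obtain ⟨x, hx, hx0⟩ := (Submodule.ne_bot_iff W).1 hW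
    have hne : {y : Matrix B B ℂ | y ∈ W ∧ y ≠ 0}.Nonempty := ⟨x, hx, hx0⟩
    obtain ⟨e, he, hmin⟩ := WellFounded.has_min (measure (fun y : Matrix B B ℂ => y.rank)).wf _ hne
    exact ⟨e, he, fun y hy => not_lt.1 (hmin y hy)⟩
  have hz : ∀ y ∈ W, y.rank < e.rank → y = 0 := by
    intro y hy hlt
    by_contra h0
    exact absurd (hmin y ⟨hy, h0⟩) (not_le.2 hlt)
  have heH : e * eᴴ ≠ 0 := mulConj_ne he0
  -- the eigenvalue
  obtain ⟨t, v, hv, hv0, hev⟩ := exists_eig_range (N := e * eᴴ) he0 (by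
    intro v _
    refine ⟨eᴴ *ᵥ v, ?_⟩
    rw [mulVecLin_apply, mulVec_mulVec])
  have h3 : e * eᴴ * e = t • e := by
    have h1 : (e * eᴴ - t • 1) * e = e * eᴴ * e - t • e := by
      rw [sub_mul, Matrix.smul_mul, one_mul]
    have h2 : e * eᴴ * e - t • e ∈ W := by
      refine Submodule.sub_mem _ ?_ (Submodule.smul_mem _ _ he)
      have h4 := Submodule.smul_mem W (2 : ℂ)⁻¹ (tri e he e he e he)
      rw [← two_smul ℂ, smul_smul, inv_mul_cancel₀ two_ne_zero, one_smul] at h4
      exact h4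
    have h4 := hz _ h2 (by
      rw [← h1]
      refine rank_mul_lt hv hv0 ?_
      rw [sub_mulVec, hev, smul_mulVec, one_mulVec, sub_self])
    exact sub_eq_zero.1 h4
  have ht0 : t ≠ 0 := by
    rintro rfl
    rw [zero_smul] at h3
    apply mulConj_ne heH
    rw [conjTranspose_mul, conjTranspose_conjTranspose, ← mul_assoc, h3, zero_mul]
  have hst : star t = t := by
    have h4 := congrArg conjTranspose h3
    rw [conjTranspose_mul, conjTranspose_mul, conjTranspose_conjTranspose,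
      conjTranspose_smul] at h4
    have h5 : e * (eᴴ * (e * eᴴ)) = t • (e * eᴴ) := by
      rw [← mul_assoc, ← mul_assoc, h3, Matrix.smul_mul]
    rw [h4, Matrix.mul_smul] at h5
    have h6 : (star t - t) • (e * eᴴ) = 0 := by rw [sub_smul, h5, sub_self]
    exact sub_eq_zero.1 ((smul_eq_zero.1 h6).resolve_right heH)
  refine ⟨e, t, he, he0, ht0, hst, h3, fun x hx hpx => ?_⟩
  obtain ⟨p, hp⟩ : ∃ p, p = t⁻¹ • (e * eᴴ) := ⟨_, rfl⟩
  obtain ⟨q, hq⟩ : ∃ q, q = t⁻¹ • (eᴴ * e) := ⟨_, rfl⟩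
  rw [← hp, ← hq] at hpx
  have hpp : p * p = p := by
    rw [hp, Matrix.smul_mul, Matrix.mul_smul, ← mul_assoc, h3, Matrix.smul_mul,
      smul_smul t⁻¹ t, inv_mul_cancel₀ ht0, one_smul]
  have hqq : q * q = q := by
    rw [hq, Matrix.smul_mul, Matrix.mul_smul, mul_assoc, ← mul_assoc e, h3, Matrix.mul_smul,
      smul_smul t⁻¹ t, inv_mul_cancel₀ ht0, one_smul]
  have hpx' : p * x = x := by rw [← hpx, ← mul_assoc, ← mul_assoc, hpp]
  have hxq' : x * q = x := by rw [← hpx, mul_assoc _ q q, hqq]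
  obtain ⟨μ, w, hw, hw0, hew⟩ := exists_eig_range (N := x * eᴴ) he0 (by
    intro v _
    refine ⟨t⁻¹ • (eᴴ *ᵥ ((x * eᴴ) *ᵥ v)), ?_⟩
    rw [mulVecLin_apply, mulVec_smul, mulVec_mulVec _ e, ← smul_mulVec, ← hp, mulVec_mulVec,
      ← mul_assoc, hpx'])
  have h5 : (x * eᴴ - μ • 1) * e = t • x - μ • e := by
    rw [sub_mul, Matrix.smul_mul, one_mul, mul_assoc]
    have h6 : eᴴ * e = t • q := by rw [hq, smul_smul, mul_inv_cancel₀ ht0, one_smul]
    rw [h6, Matrix.mul_smul, hxq']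
  have h6 := hz _ (Submodule.sub_mem _ (Submodule.smul_mem _ t hx) (Submodule.smul_mem _ μ he))
    (by
      rw [← h5]
      refine rank_mul_lt hw hw0 ?_
      rw [sub_mulVec, hew, smul_mulVec, one_mulVec, sub_self])
  refine ⟨t⁻¹ * μ, ?_⟩
  rw [mul_smul, ← sub_eq_zero.1 h6, smul_smul, inv_mul_cancel₀ ht0, one_smul]

namespace Tri

variable (H : Tri W P Q a b)
include H

/-- **The key lemma**: the triple system contains all matrices of the format. -/
theorem full (hW : W ≠ ⊥) (hcop : Nat.Coprime a b) : W = LinearMap.range (lr P Q) := by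
  obtain ⟨e, t, M⟩ := exists_mini H.tri hW
  have ht0 := M.t0
  obtain ⟨p, hp⟩ : ∃ p, p = t⁻¹ • (e * eᴴ) := ⟨_, rfl⟩
  obtain ⟨q, hq⟩ : ∃ q, q = t⁻¹ • (eᴴ * e) := ⟨_, rfl⟩
  have hone : ∀ x ∈ W, p * x * q = x → ∃ c : ℂ, x = c • e := by rw [hp, hq]; exact M.one
  have hst : star t⁻¹ = t⁻¹ := by rw [star_inv₀, M.st]
  have hpe : p * e = e := by
    rw [hp, Matrix.smul_mul, M.eee, smul_smul, inv_mul_cancel₀ ht0, one_smul]
  have heq : e * q = e := by
    rw [hq, Matrix.mul_smul, ← mul_assoc, M.eee, smul_smul, inv_mul_cancel₀ ht0, one_smul]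
  have hpp : p * p = p := by
    nth_rewrite 2 [hp]
    rw [Matrix.mul_smul, ← mul_assoc, hpe, ← hp]
  have hqq : q * q = q := by
    nth_rewrite 1 [hq]
    rw [Matrix.smul_mul, mul_assoc, heq, ← hq]
  have hpH : pᴴ = p := by
    rw [hp, conjTranspose_smul, hst, conjTranspose_mul, conjTranspose_conjTranspose]
  have hqH : qᴴ = q := by
    rw [hq, conjTranspose_smul, hst, conjTranspose_mul, conjTranspose_conjTranspose]
  have heH : e * eᴴ = t • p := by rw [hp, smul_smul, mul_inv_cancel₀ ht0, one_smul]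
  have hHe : eᴴ * e = t • q := by rw [hq, smul_smul, mul_inv_cancel₀ ht0, one_smul]
  have hPe : P * e = e := (H.le e M.mem).1
  have heQ : e * Q = e := (H.le e M.mem).2
  have hPp : P * p = p := by rw [hp, Matrix.mul_smul, ← mul_assoc, hPe]
  have hqQ : q * Q = q := by rw [hq, Matrix.smul_mul, mul_assoc, heQ]
  have hpP : p * P = p := by
    have h1 := congrArg conjTranspose hPp
    rwa [conjTranspose_mul, H.PH, hpH] at h1
  have hQq : Q * q = q := by
    have h1 := congrArg conjTranspose hqQ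
    rwa [conjTranspose_mul, H.QH, hqH] at h1
  -- the operator
  have hTmem : ∀ x ∈ W, p * x + x * q ∈ W := by
    intro x hx
    have h1 := Submodule.smul_mem W t⁻¹ (H.tri e M.mem e M.mem x hx)
    have h2 : t⁻¹ • (e * eᴴ * x + x * eᴴ * e) = p * x + x * q := by
      rw [hp, hq, smul_add, Matrix.smul_mul, Matrix.mul_smul, mul_assoc x]
    rwa [h2] at h1
  have h2mem : ∀ x ∈ W, p * x * q ∈ W := by
    intro x hx
    have h1 := Submodule.smul_mem W (2 : ℂ)⁻¹
      (Submodule.sub_mem _ (hTmem _ (hTmem x hx)) (hTmem x hx))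
    have h2 : p * (p * x + x * q) + (p * x + x * q) * q - (p * x + x * q) =
        (2 : ℂ) • (p * x * q) := by
      have h3 : p * (p * x + x * q) + (p * x + x * q) * q - (p * x + x * q) =
          (p * p) * x + p * x * q + (p * x * q + x * (q * q)) - (p * x + x * q) := by noncomm_ring
      rw [h3, hpp, hqq, two_smul]
      abel
    rwa [h2, smul_smul, inv_mul_cancel₀ two_ne_zero, one_smul] at h1
  obtain ⟨T, hT⟩ : ∃ T : W →ₗ[ℂ] W, ∀ x : W, ((T x : W) : Matrix B B ℂ) = p * x + x * q :=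
    ⟨{ toFun := fun x => ⟨p * x + x * q, hTmem x x.2⟩
       map_add' := fun x y => Subtype.ext (by
        change p * ((x : Matrix B B ℂ) + y) + (x + y) * q = (p * x + x * q) + (p * y + y * q)
        noncomm_ring)
       map_smul' := fun c x => Subtype.ext (by
        change p * (c • (x : Matrix B B ℂ)) + (c • (x : Matrix B B ℂ)) * q = c • (p * x + x * q)
        rw [Matrix.mul_smul, Matrix.smul_mul, smul_add]) }, fun _ => rfl⟩
  obtain ⟨π2, hπ2⟩ : ∃ T : W →ₗ[ℂ] W, ∀ x : W, ((T x : W) : Matrix B B ℂ) = p * x * q :=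
    ⟨{ toFun := fun x => ⟨p * x * q, h2mem x x.2⟩
       map_add' := fun x y => Subtype.ext (by
        change p * ((x : Matrix B B ℂ) + y) * q = p * x * q + p * y * q
        noncomm_ring)
       map_smul' := fun c x => Subtype.ext (by
        change p * (c • (x : Matrix B B ℂ)) * q = c • (p * x * q)
        rw [Matrix.mul_smul, Matrix.smul_mul]) }, fun _ => rfl⟩
  obtain ⟨π1, hπ1e⟩ : ∃ π1, π1 = T - (2 : ℂ) • π2 := ⟨_, rfl⟩
  have hπ1 : ∀ x : W, ((π1 x : W) : Matrix B B ℂ) = p * x + x * q - (2 : ℂ) • (p * x * q) := by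
    intro x
    rw [hπ1e, ← hT, ← hπ2]
    rfl
  have hTeq : T = (2 : ℂ) • π2 + π1 := by
    rw [hπ1e]
    abel
  have hid2 : ∀ x, π2 (π2 x) = π2 x := by
    intro x
    apply Subtype.ext
    rw [hπ2, hπ2]
    calc p * (p * x * q) * q = (p * p) * x * (q * q) := by noncomm_ring
    _ = _ := by rw [hpp, hqq]
  have hx1 : ∀ x : W, p * ((π1 x : W) : Matrix B B ℂ) * q = 0 := by
    intro x
    rw [hπ1]
    have h3 : p * (p * x + x * q - (2 : ℂ) • (p * x * q)) * q =
        (p * p) * x * q + p * x * (q * q) - (2 : ℂ) • ((p * p) * x * (q * q)) := by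
      rw [mul_sub, sub_mul, Matrix.mul_smul, Matrix.smul_mul]
      noncomm_ring
    rw [h3, hpp, hqq, two_smul]
    abel
  have hid1 : ∀ x, π1 (π1 x) = π1 x := by
    intro x
    apply Subtype.ext
    rw [hπ1 (π1 x), hx1, smul_zero, sub_zero, hπ1]
    have h3 : p * (p * x + x * q - (2 : ℂ) • (p * x * q)) +
        (p * x + x * q - (2 : ℂ) • (p * x * q)) * q =
        (p * p) * x + p * x * q - (2 : ℂ) • ((p * p) * x * q) +
        (p * x * q + x * (q * q) - (2 : ℂ) • (p * x * (q * q))) := by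
      rw [mul_sub, sub_mul, Matrix.mul_smul, Matrix.smul_mul]
      noncomm_ring
    rw [h3, hpp, hqq, two_smul]
    abel
  have hW1 : ∀ x : W, x ∈ LinearMap.range π1 → p * (x : Matrix B B ℂ) * q = 0 ∧
      p * (x : Matrix B B ℂ) + x * q = x := by
    rintro _ ⟨x, rfl⟩
    refine ⟨hx1 x, ?_⟩
    have h3 := congrArg Subtype.val (hid1 x)
    rw [hπ1 (π1 x), hx1, smul_zero, sub_zero] at h3
    exact h3
  -- the dimensions
  have htr2 : finrank ℂ (LinearMap.range π2) = 1 := by
    refine finrank_eq_one_of _ (e := (⟨e, M.mem⟩ : W)) ⟨⟨e, M.mem⟩, Subtype.ext (by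
      rw [hπ2]
      change p * e * q = e
      rw [hpe, heq])⟩ (fun h0 => M.ne (congrArg Subtype.val h0)) ?_
    rintro _ ⟨y, rfl⟩
    obtain ⟨c, hc⟩ := hone _ (π2 y).2 (by
      have h3 := congrArg Subtype.val (hid2 y)
      rw [hπ2 (π2 y)] at h3
      exact h3)
    exact ⟨c, Subtype.ext hc⟩
  obtain ⟨k, hk⟩ : ∃ k, k = finrank ℂ (LinearMap.range π1) := ⟨_, rfl⟩
  obtain ⟨m, hm⟩ : ∃ m, m = finrank ℂ (LinearMap.range (mulVecLin p)) := ⟨_, rfl⟩
  have htrT : LinearMap.trace ℂ W T = 2 + k := by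
    rw [hTeq, map_add, map_smul, trace_idemOp hid2, trace_idemOp hid1, htr2, ← hk, smul_eq_mul]
    push_cast
    ring
  have htrp : trace p = m := by rw [trace_idemM hpp, hm]
  have htrq : trace q = m := by
    rw [← htrp, hq, hp, trace_smul, trace_smul, trace_mul_comm]
  have hm1 : 1 ≤ m := by
    rw [Nat.one_le_iff_ne_zero]
    rintro rfl
    have h1 := hm.symm
    rw [Submodule.finrank_eq_zero, LinearMap.range_eq_bot] at h1
    have h2 : p = 0 := by
      apply Matrix.toLin'.injective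
      rw [map_zero]
      exact h1
    apply M.ne
    rw [← hpe, h2, zero_mul]
  have hd1 : 1 ≤ finrank ℂ W := by
    rw [Nat.one_le_iff_ne_zero]
    intro h0
    rw [Submodule.finrank_eq_zero] at h0
    exact hW h0
  -- the bound
  have hbound : k + 2 * m ≤ a + b := by
    obtain ⟨u, hu⟩ : ∃ u, e *ᵥ u ≠ 0 := by
      by_contra hcon
      push Not at hcon
      apply M.ne
      ext i j
      have := congrFun (hcon (Pi.single j 1)) i
      rwa [mulVec_single_one] at this
    obtain ⟨v, hv⟩ : ∃ v, v = q *ᵥ u := ⟨_, rfl⟩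
    have hqv : q *ᵥ v = v := by rw [hv, mulVec_mulVec, hqq]
    have hev : e *ᵥ v ≠ 0 := by rw [hv, mulVec_mulVec, heq]; exact hu
    obtain ⟨w, hw⟩ : ∃ w, w = star (e *ᵥ v) := ⟨_, rfl⟩
    have hwp : w ᵥ* p = w := by
      have h1 : p *ᵥ (e *ᵥ v) = e *ᵥ v := by rw [mulVec_mulVec, hpe]
      have h2 := congrArg star h1
      rw [star_mulVec, hpH, ← hw] at h2
      exact h2
    have hPp2 : (P - p) * (P - p) = P - p := by
      rw [sub_mul, mul_sub, mul_sub, H.PP, hpp, hPp, hpP]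
      abel
    have hQq2 : (Q - q)ᵀ * (Q - q)ᵀ = (Q - q)ᵀ := by
      rw [← transpose_mul, sub_mul, mul_sub, mul_sub, H.QQ, hqq, hQq, hqQ]
      congr 1
      abel
    obtain ⟨a', ha'⟩ : ∃ a', a' = finrank ℂ (LinearMap.range (mulVecLin (P - p))) := ⟨_, rfl⟩
    obtain ⟨b', hb'⟩ : ∃ b', b' = finrank ℂ (LinearMap.range (mulVecLin (Q - q)ᵀ)) := ⟨_, rfl⟩
    have ha2 : a' + m = a := by
      have h1 := trace_idemM hPp2
      rw [← ha', trace_sub, H.trP, htrp, sub_eq_iff_eq_add] at h1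
      exact_mod_cast h1.symm
    have hb2 : b' + m = b := by
      have h1 := trace_idemM hQq2
      rw [← hb', trace_transpose, trace_sub, H.trQ, htrq, sub_eq_iff_eq_add] at h1
      exact_mod_cast h1.symm
    let f : W →ₗ[ℂ] (B → ℂ) :=
      { toFun := fun x => (x : Matrix B B ℂ) *ᵥ v
        map_add' := fun x y => by
          change ((x : Matrix B B ℂ) + (y : Matrix B B ℂ)) *ᵥ v = _ *ᵥ v + _ *ᵥ v
          rw [add_mulVec]
        map_smul' := fun c x => by
          change (c • (x : Matrix B B ℂ)) *ᵥ v = c • (_ *ᵥ v)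
          rw [smul_mulVec] }
    let g : W →ₗ[ℂ] (B → ℂ) :=
      { toFun := fun x => w ᵥ* (x : Matrix B B ℂ)
        map_add' := fun x y => by
          change w ᵥ* ((x : Matrix B B ℂ) + (y : Matrix B B ℂ)) = w ᵥ* _ + w ᵥ* _
          rw [vecMul_add]
        map_smul' := fun c x => by
          change w ᵥ* (c • (x : Matrix B B ℂ)) = c • (w ᵥ* _)
          rw [vecMul_smul] }
    have h1 := finrank_le_of_maps (LinearMap.range π1) f g
      (LinearMap.range (mulVecLin (P - p))) (LinearMap.range (mulVecLin (Q - q)ᵀ)) ?_ ?_ ?_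
    · rw [← hk, ← ha', ← hb'] at h1
      omega
    · intro x hx
      obtain ⟨h1, h2⟩ := hW1 x hx
      obtain ⟨h3, h4⟩ := H.le _ x.2
      refine ⟨(x : Matrix B B ℂ) *ᵥ v, ?_⟩
      rw [mulVecLin_apply, sub_mulVec, mulVec_mulVec, h3]
      have h5 : p *ᵥ ((x : Matrix B B ℂ) *ᵥ v) = 0 := by
        rw [← hqv, mulVec_mulVec, mulVec_mulVec, h1, zero_mulVec]
      rw [h5, sub_zero]
      rfl
    · intro x hx
      obtain ⟨h1, h2⟩ := hW1 x hx
      obtain ⟨h3, h4⟩ := H.le _ x.2
      refine ⟨w ᵥ* (x : Matrix B B ℂ), ?_⟩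
      rw [mulVecLin_apply, mulVec_transpose, vecMul_sub, vecMul_vecMul, h4]
      have h5 : (w ᵥ* (x : Matrix B B ℂ)) ᵥ* q = 0 := by
        rw [← hwp, vecMul_vecMul, vecMul_vecMul, ← mul_assoc, h1, vecMul_zero]
      rw [h5, sub_zero]
      rfl
    · intro x hx hf hg
      obtain ⟨h1, h2⟩ := hW1 x hx
      obtain ⟨X, hX⟩ : ∃ X, X = (x : Matrix B B ℂ) := ⟨_, rfl⟩
      have hXW : X ∈ W := by rw [hX]; exact x.2
      have hxv : X *ᵥ v = 0 := by
        rw [hX]
        exact hf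
      have hxw : w ᵥ* X = 0 := by
        rw [hX]
        exact hg
      rw [← hX] at h1 h2
      have hxw2 : Xᴴ *ᵥ (e *ᵥ v) = 0 := by
        have h3 := congrArg star hxw
        rw [hw, star_vecMul, star_star, star_zero] at h3
        exact h3
      obtain ⟨y, hy⟩ : ∃ y, y = X * Xᴴ * e + e * Xᴴ * X := ⟨_, rfl⟩
      have hyW : y ∈ W := by rw [hy]; exact H.tri X hXW X hXW e M.mem
      have h5 : q * Xᴴ * e = 0 := by
        have h6 : q * Xᴴ * p = 0 := by
          have h7 := congrArg conjTranspose h1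
          rw [conjTranspose_mul, conjTranspose_mul, hpH, hqH, conjTranspose_zero] at h7
          rw [mul_assoc]
          exact h7
        rw [← hpe, ← mul_assoc, h6, zero_mul]
      have h6 : e * Xᴴ * p = 0 := by
        have h6 : q * Xᴴ * p = 0 := by
          have h7 := congrArg conjTranspose h1
          rw [conjTranspose_mul, conjTranspose_mul, hpH, hqH, conjTranspose_zero] at h7
          rw [mul_assoc]
          exact h7
        rw [← heq, mul_assoc e, mul_assoc e, h6, mul_zero]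
      have h7 : X * Xᴴ * e = p * (X * Xᴴ * e) := by
        nth_rewrite 1 [← h2]
        have h8 : (p * X + X * q) * Xᴴ * e = p * (X * Xᴴ * e) + X * (q * Xᴴ * e) := by
          noncomm_ring
        rw [h8, h5, mul_zero, add_zero]
      have h8 : e * Xᴴ * X = e * Xᴴ * X * q := by
        have h9 : e * Xᴴ * (p * X + X * q) = (e * Xᴴ * p) * X + e * Xᴴ * X * q := by
          noncomm_ring
        rw [h2, h6, zero_mul, zero_add] at h9
        exact h9
      have hpyq : p * y * q = y := by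
        rw [hy]
        have h9 : p * (X * Xᴴ * e + e * Xᴴ * X) * q =
            p * (X * Xᴴ * e) * q + (p * e) * Xᴴ * X * q := by noncomm_ring
        rw [h9, ← h7, hpe, ← h8, mul_assoc _ e q, heq]
      obtain ⟨c, hc⟩ := hone y hyW hpyq
      have hyv : y *ᵥ v = 0 := by
        rw [hy, add_mulVec, ← mulVec_mulVec, ← mulVec_mulVec, hxw2, mulVec_zero, ← mulVec_mulVec,
          hxv, mulVec_zero, add_zero]
      have hc0 : c = 0 := by
        rw [hc, smul_mulVec] at hyv
        exact (smul_eq_zero.1 hyv).resolve_right hev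
      have hy0 : y = 0 := by rw [hc, hc0, zero_smul]
      have htr : trace (y * eᴴ) = t * trace (X * Xᴴ) := by
        rw [hy, add_mul, trace_add]
        have e1 : trace (X * Xᴴ * e * eᴴ) = t * trace (p * (X * Xᴴ)) := by
          rw [mul_assoc, heH, Matrix.mul_smul, trace_smul, smul_eq_mul, trace_mul_comm]
        have e2 : trace (e * Xᴴ * X * eᴴ) = t * trace (X * q * Xᴴ) := by
          rw [trace_mul_comm, mul_assoc e, ← mul_assoc, hHe, Matrix.smul_mul, trace_smul,
            smul_eq_mul, mul_assoc X, trace_mul_comm X, mul_assoc q]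
        rw [e1, e2, ← mul_add, ← trace_add]
        congr 2
        have h9 : (p * X + X * q) * Xᴴ = p * (X * Xᴴ) + X * q * Xᴴ := by noncomm_ring
        rw [h2] at h9
        exact h9.symm
      rw [hy0, zero_mul, trace_zero] at htr
      have h9 := (mul_eq_zero.1 htr.symm).resolve_left ht0
      rw [trace_mul_conjTranspose_self_eq_zero_iff] at h9
      apply Subtype.ext
      rw [← hX, h9]
      rfl
  have hcas := H.cas p q T hPp hqQ hT
  rw [htrT, htrp, htrq] at hcas
  have hnat : a * b * (2 + k) = finrank ℂ W * (b * m + a * m) := by exact_mod_cast hcas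
  have hd := arith hcop hm1 hd1 hbound hnat
  have hle : W ≤ LinearMap.range (lr P Q) := by
    intro x hx
    exact (mem_lr H.PP H.QQ).2 (H.le x hx)
  refine Submodule.eq_of_le_of_finrank_eq hle ?_
  have h1 := finrank_lr H.PP H.QQ
  rw [H.trP, H.trQ] at h1
  rw [hd]
  exact_mod_cast h1.symm

end Tri

end Pool.Agent.Y4.G
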