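import Mathlib
import Pool.Agent.Y4.G.Tri

/-!
# Lie algebras with an element which has two eigenvalues of coprime multiplicities

An irreducible Lie algebra of matrices which is stable under the conjugate transpose and contains
an element with two eigenvalues of coprime multiplicities contains all trace zero matrices. The
classification of simple Lie algebras is not used.
-/

set_option linter.unusedSectionVars false

namespace Pool.Agent.Y4.G

open Matrix Module

open scoped ComplexOrder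

/-- Dual bases for a pairing between two subspaces. -/
theorem exists_dual {V : Type*} [AddCommGroup V] [Module ℂ V] [FiniteDimensional ℂ V]
    (β : V →ₗ[ℂ] V →ₗ[ℂ] ℂ) (W W' : Submodule ℂ V)
    (n1 : ∀ x ∈ W, (∀ y ∈ W', β x y = 0) → x = 0)
    (n2 : ∀ y ∈ W', (∀ x ∈ W, β x y = 0) → y = 0) :
    ∃ (n : ℕ) (b : Basis (Fin n) ℂ W) (y : Fin n → V), (∀ i, y i ∈ W') ∧
      (∀ i, ∀ x : W, β x (y i) = b.repr x i) ∧ ∀ z ∈ W', z = ∑ i, β (b i) z • y i := by
  let ψ : W' →ₗ[ℂ] Dual ℂ W := ((β.domRestrict W).flip.domRestrict W')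
  have hψ : ∀ (y : W') (x : W), ψ y x = β x y := fun _ _ => rfl
  let χ : W →ₗ[ℂ] Dual ℂ W' := ((β.flip.domRestrict W').flip.domRestrict W)
  have hχ : ∀ (x : W) (y : W'), χ x y = β x y := fun _ _ => rfl
  have i1 : Function.Injective ψ := by
    rw [← LinearMap.ker_eq_bot, LinearMap.ker_eq_bot']
    intro y hy
    refine Subtype.ext (n2 y y.2 fun x hx => ?_)
    rw [← hψ y ⟨x, hx⟩, hy]
    rfl
  have i2 : Function.Injective χ := by
    rw [← LinearMap.ker_eq_bot, LinearMap.ker_eq_bot']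
    intro x hx
    refine Subtype.ext (n1 x x.2 fun y hy => ?_)
    rw [← hχ x ⟨y, hy⟩, hx]
    rfl
  have h1 := LinearMap.finrank_le_finrank_of_injective i1
  have h2 := LinearMap.finrank_le_finrank_of_injective i2
  rw [Subspace.dual_finrank_eq] at h1 h2
  have hsurj : Function.Surjective ψ :=
    (LinearMap.injective_iff_surjective_of_finrank_eq_finrank
      (by rw [Subspace.dual_finrank_eq]; omega)).1 i1
  let b := finBasis ℂ W
  have hy : ∀ i, ∃ y : W', ψ y = b.coord i := fun i => hsurj _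
  choose y hy using hy
  have hy2 : ∀ i, ∀ x : W, β x (y i) = b.repr x i := by
    intro i x
    rw [← hψ, hy]
    rfl
  refine ⟨_, b, fun i => y i, fun i => (y i).2, hy2, fun z hz => ?_⟩
  rw [← sub_eq_zero]
  refine n2 _ (Submodule.sub_mem _ hz (Submodule.sum_mem _ fun i _ =>
    Submodule.smul_mem _ _ (y i).2)) fun x hx => ?_
  rw [map_sub, map_sum, sub_eq_zero]
  have h3 : (x : V) = ∑ i, b.repr ⟨x, hx⟩ i • (b i : V) := by
    have h4 := congrArg Subtype.val (b.sum_repr ⟨x, hx⟩)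
    refine h4.symm.trans ?_
    rw [Submodule.coe_sum]
    rfl
  have h4 : β x z = ∑ i, b.repr ⟨x, hx⟩ i • β (b i) z := by
    nth_rewrite 1 [h3]
    rw [map_sum, LinearMap.sum_apply]
    exact Finset.sum_congr rfl fun i _ => by rw [map_smul, LinearMap.smul_apply]
  rw [h4]
  refine Finset.sum_congr rfl fun i _ => ?_
  rw [map_smul]
  have h5 := hy2 i ⟨x, hx⟩
  change β x (y i) = _ at h5
  rw [h5, smul_eq_mul, smul_eq_mul, mul_comm]

variable {B : Type*} [Fintype B] [DecidableEq B]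

/-- The trace form. -/
noncomputable def trF (B : Type*) [Fintype B] [DecidableEq B] :
    Matrix B B ℂ →ₗ[ℂ] Matrix B B ℂ →ₗ[ℂ] ℂ :=
  LinearMap.mk₂ ℂ (fun X Y => trace (X * Y)) (fun X X' Y => by rw [add_mul, trace_add])
    (fun c X Y => by rw [Matrix.smul_mul, trace_smul])
    (fun X Y Y' => by rw [mul_add, trace_add])
    (fun c X Y => by rw [Matrix.mul_smul, trace_smul])

theorem trF_apply (X Y : Matrix B B ℂ) : trF B X Y = trace (X * Y) := rfl

/-- The Casimir element commutes. -/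
theorem casimir_comm {n : ℕ} (x y : Fin n → Matrix B B ℂ) (z : Matrix B B ℂ)
    (hx : ∀ i, z * x i - x i * z = ∑ j, trace ((z * x i - x i * z) * y j) • x j)
    (hy : ∀ i, z * y i - y i * z = ∑ j, trace (x j * (z * y i - y i * z)) • y j) :
    (∑ i, x i * y i) * z = z * ∑ i, x i * y i ∧ (∑ i, y i * x i) * z = z * ∑ i, y i * x i := by
  have hcoef : ∀ i j, trace ((z * x i - x i * z) * y j) +
      trace (x i * (z * y j - y j * z)) = 0 := by
    intro i j
    rw [← trace_add]
    have h4 : (z * x i - x i * z) * y j + x i * (z * y j - y j * z) =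
        z * (x i * y j) - (x i * y j) * z := by noncomm_ring
    rw [h4, trace_sub, trace_mul_comm, sub_self]
  constructor
  · symm
    rw [← sub_eq_zero, Finset.mul_sum, Finset.sum_mul, ← Finset.sum_sub_distrib]
    have e1 : ∀ i, z * (x i * y i) - x i * y i * z =
        (z * x i - x i * z) * y i + x i * (z * y i - y i * z) := fun i => by noncomm_ring
    have e2 : ∀ i, (z * x i - x i * z) * y i =
        ∑ j, trace ((z * x i - x i * z) * y j) • (x j * y i) := by
      intro i
      nth_rewrite 1 [hx i]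
      rw [Finset.sum_mul]
      exact Finset.sum_congr rfl fun j _ => by rw [Matrix.smul_mul]
    have e3 : ∀ i, x i * (z * y i - y i * z) =
        ∑ j, trace (x j * (z * y i - y i * z)) • (x i * y j) := by
      intro i
      nth_rewrite 1 [hy i]
      rw [Finset.mul_sum]
      exact Finset.sum_congr rfl fun j _ => by rw [Matrix.mul_smul]
    rw [Finset.sum_congr rfl fun i _ => e1 i, Finset.sum_add_distrib,
      Finset.sum_congr rfl fun i _ => e2 i, Finset.sum_congr rfl fun i _ => e3 i,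
      Finset.sum_comm (f := fun i j => trace (x j * (z * y i - y i * z)) • (x i * y j)),
      ← Finset.sum_add_distrib]
    refine Finset.sum_eq_zero fun i _ => ?_
    rw [← Finset.sum_add_distrib]
    refine Finset.sum_eq_zero fun j _ => ?_
    rw [← add_smul, hcoef, zero_smul]
  · symm
    rw [← sub_eq_zero, Finset.mul_sum, Finset.sum_mul, ← Finset.sum_sub_distrib]
    have e1 : ∀ i, z * (y i * x i) - y i * x i * z =
        y i * (z * x i - x i * z) + (z * y i - y i * z) * x i := fun i => by noncomm_ring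
    have e2 : ∀ i, y i * (z * x i - x i * z) =
        ∑ j, trace ((z * x i - x i * z) * y j) • (y i * x j) := by
      intro i
      nth_rewrite 1 [hx i]
      rw [Finset.mul_sum]
      exact Finset.sum_congr rfl fun j _ => by rw [Matrix.mul_smul]
    have e3 : ∀ i, (z * y i - y i * z) * x i =
        ∑ j, trace (x j * (z * y i - y i * z)) • (y j * x i) := by
      intro i
      nth_rewrite 1 [hy i]
      rw [Finset.sum_mul]
      exact Finset.sum_congr rfl fun j _ => by rw [Matrix.smul_mul]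
    rw [Finset.sum_congr rfl fun i _ => e1 i, Finset.sum_add_distrib,
      Finset.sum_congr rfl fun i _ => e2 i, Finset.sum_congr rfl fun i _ => e3 i,
      Finset.sum_comm (f := fun i j => trace (x j * (z * y i - y i * z)) • (y j * x i)),
      ← Finset.sum_add_distrib]
    refine Finset.sum_eq_zero fun i _ => ?_
    rw [← Finset.sum_add_distrib]
    refine Finset.sum_eq_zero fun j _ => ?_
    rw [← add_smul, hcoef, zero_smul]

/-- A Lie algebra of matrices in a corner which contains the difference of two orthogonal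
projectors. -/
structure Lie (G : Submodule ℂ (Matrix B B ℂ)) (P Q : Matrix B B ℂ) (a b : ℕ) : Prop where
  br : ∀ X ∈ G, ∀ Y ∈ G, X * Y - Y * X ∈ G
  ad : ∀ X ∈ G, Xᴴ ∈ G
  PP : P * P = P
  QQ : Q * Q = Q
  PH : Pᴴ = P
  QH : Qᴴ = Q
  PQ : P * Q = 0
  QP : Q * P = 0
  D : P - Q ∈ G
  lel : ∀ X ∈ G, (P + Q) * X = X
  ler : ∀ X ∈ G, X * (P + Q) = X
  irr : ∀ U : Submodule ℂ (B → ℂ), (∀ u ∈ U, (P + Q) *ᵥ u = u) →
    (∀ X ∈ G, ∀ u ∈ U, X *ᵥ u ∈ U) → U = ⊥ ∨ ∀ u, (P + Q) *ᵥ u = u → u ∈ U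
  trP : trace P = a
  trQ : trace Q = b

namespace Lie

variable {G : Submodule ℂ (Matrix B B ℂ)} {P Q : Matrix B B ℂ} {a b : ℕ} (H : Lie G P Q a b)
include H

theorem symm : Lie G Q P b a where
  br := H.br
  ad := H.ad
  PP := H.QQ
  QQ := H.PP
  PH := H.QH
  QH := H.PH
  PQ := H.QP
  QP := H.PQ
  D := by
    have h := Submodule.neg_mem _ H.D
    rwa [neg_sub] at h
  lel := by rw [add_comm]; exact H.lel
  ler := by rw [add_comm]; exact H.ler
  irr := by rw [add_comm Q P]; exact H.irr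
  trP := H.trQ
  trQ := H.trP

theorem grP {X : Matrix B B ℂ} (hX : X ∈ G) : P * X * Q ∈ G := by
  have h1 := H.br _ H.D _ hX
  have h2 := H.br _ H.D _ h1
  have h3 : (P - Q) * ((P - Q) * X - X * (P - Q)) - ((P - Q) * X - X * (P - Q)) * (P - Q) +
      (2 : ℂ) • ((P - Q) * X - X * (P - Q)) = (8 : ℂ) • (P * X * Q) := by
    have hl := H.lel X hX
    have hr := H.ler X hX
    obtain ⟨x1, h1⟩ : ∃ x1, x1 = P * X * P := ⟨_, rfl⟩
    obtain ⟨x2, h2⟩ : ∃ x2, x2 = P * X * Q := ⟨_, rfl⟩
    obtain ⟨x3, h3⟩ : ∃ x3, x3 = Q * X * P := ⟨_, rfl⟩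
    obtain ⟨x4, h4⟩ : ∃ x4, x4 = Q * X * Q := ⟨_, rfl⟩
    have hX2 : X = x1 + x2 + x3 + x4 := by
      nth_rewrite 1 [← hr, ← hl]
      rw [h1, h2, h3, h4]
      noncomm_ring
    have p1 : P * x1 = x1 := by rw [h1, ← mul_assoc, ← mul_assoc, H.PP]
    have p2 : P * x2 = x2 := by rw [h2, ← mul_assoc, ← mul_assoc, H.PP]
    have p3 : P * x3 = 0 := by rw [h3, ← mul_assoc, ← mul_assoc, H.PQ, zero_mul, zero_mul]
    have p4 : P * x4 = 0 := by rw [h4, ← mul_assoc, ← mul_assoc, H.PQ, zero_mul, zero_mul]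
    have q1 : Q * x1 = 0 := by rw [h1, ← mul_assoc, ← mul_assoc, H.QP, zero_mul, zero_mul]
    have q2 : Q * x2 = 0 := by rw [h2, ← mul_assoc, ← mul_assoc, H.QP, zero_mul, zero_mul]
    have q3 : Q * x3 = x3 := by rw [h3, ← mul_assoc, ← mul_assoc, H.QQ]
    have q4 : Q * x4 = x4 := by rw [h4, ← mul_assoc, ← mul_assoc, H.QQ]
    have r1 : x1 * P = x1 := by rw [h1, mul_assoc _ P P, H.PP]
    have r2 : x2 * P = 0 := by rw [h2, mul_assoc _ Q P, H.QP, mul_zero]
    have r3 : x3 * P = x3 := by rw [h3, mul_assoc _ P P, H.PP]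
    have r4 : x4 * P = 0 := by rw [h4, mul_assoc _ Q P, H.QP, mul_zero]
    have s1 : x1 * Q = 0 := by rw [h1, mul_assoc _ P Q, H.PQ, mul_zero]
    have s2 : x2 * Q = x2 := by rw [h2, mul_assoc _ Q Q, H.QQ]
    have s3 : x3 * Q = 0 := by rw [h3, mul_assoc _ P Q, H.PQ, mul_zero]
    have s4 : x4 * Q = x4 := by rw [h4, mul_assoc _ Q Q, H.QQ]
    have e1 : (P - Q) * X - X * (P - Q) = (2 : ℂ) • x2 - (2 : ℂ) • x3 := by
      rw [hX2]
      simp only [mul_add, add_mul, sub_mul, mul_sub, p1, p2, p3, p4, q1, q2, q3, q4, r1, r2, r3,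
        r4, s1, s2, s3, s4, two_smul]
      abel
    rw [e1, ← h2]
    simp only [mul_sub, sub_mul, Matrix.mul_smul, Matrix.smul_mul, p2, p3, q2, q3, r2, r3, s2, s3,
      smul_zero]
    module
  have h4 := Submodule.smul_mem _ (8 : ℂ)⁻¹
    (Submodule.add_mem _ h2 (Submodule.smul_mem _ (2 : ℂ) h1))
  rw [h3, smul_smul, inv_mul_cancel₀ (by norm_num), one_smul] at h4
  exact h4

theorem grQ {X : Matrix B B ℂ} (hX : X ∈ G) : Q * X * P ∈ G := H.symm.grP hX

theorem split {X : Matrix B B ℂ} (hX : X ∈ G) :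
    X = P * X * Q + Q * X * P + (P * X * P + Q * X * Q) := by
  nth_rewrite 1 [← H.ler X hX, ← H.lel X hX]
  noncomm_ring

theorem gr0 {X : Matrix B B ℂ} (hX : X ∈ G) : P * X * P + Q * X * Q ∈ G := by
  have h1 := H.split hX
  have h2 : P * X * P + Q * X * Q = X - (P * X * Q + Q * X * P) := by
    nth_rewrite 3 [h1]
    abel
  rw [h2]
  exact Submodule.sub_mem _ hX (Submodule.add_mem _ (H.grP hX) (H.grQ hX))

theorem gr0_comm (X : Matrix B B ℂ) :
    P * (P * X * P + Q * X * Q) = (P * X * P + Q * X * Q) * P := by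
  have h1 : P * (P * X * P + Q * X * Q) = (P * P) * X * P + (P * Q) * X * Q := by noncomm_ring
  have h2 : (P * X * P + Q * X * Q) * P = P * X * (P * P) + Q * X * (Q * P) := by noncomm_ring
  rw [h1, h2, H.PP, H.PQ, H.QP]
  simp

/-- **Schur's lemma** for the positive part. -/
theorem schur {c : Matrix B B ℂ} (h1 : P * c = c) (h2 : c * P = c)
    (hc : ∀ z ∈ G, P * z = z * P → c * z = z * c) : ∃ κ : ℂ, c = κ • P := by
  by_cases hP0 : P = 0
  · refine ⟨0, ?_⟩
    rw [← h1, hP0, zero_mul, smul_zero]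
  obtain ⟨μ, v, ⟨v', hv'⟩, hv0, hcv⟩ := exists_eig_range (N := c) hP0 (by
    intro v _
    refine ⟨c *ᵥ v, ?_⟩
    rw [mulVecLin_apply, mulVec_mulVec, h1])
  rw [mulVecLin_apply] at hv'
  have hPv : P *ᵥ v = v := by rw [← hv', mulVec_mulVec, H.PP]
  let U0 : Submodule ℂ (B → ℂ) :=
    { carrier := {u | P *ᵥ u = u ∧ c *ᵥ u = μ • u}
      zero_mem' := ⟨mulVec_zero _, by rw [mulVec_zero, smul_zero]⟩
      add_mem' := fun {x y} hx hy => ⟨by rw [mulVec_add, hx.1, hy.1],
        by rw [mulVec_add, hx.2, hy.2, smul_add]⟩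
      smul_mem' := fun r x hx => ⟨by rw [mulVec_smul, hx.1],
        by rw [mulVec_smul, hx.2, smul_comm]⟩ }
  have hU0 : ∀ u, u ∈ U0 ↔ P *ᵥ u = u ∧ c *ᵥ u = μ • u := fun _ => Iff.rfl
  let U1 : Submodule ℂ (B → ℂ) :=
    Submodule.span ℂ {w | ∃ y ∈ G, ∃ u ∈ U0, Q * y = y ∧ y * P = y ∧ w = y *ᵥ u}
  have hU1Q : ∀ w ∈ U1, Q *ᵥ w = w := by
    intro w hw
    induction hw using Submodule.span_induction with
    | mem w hw =>
      obtain ⟨y, _, u, _, hy, _, rfl⟩ := hw
      rw [mulVec_mulVec, hy]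
    | zero => exact mulVec_zero _
    | add x y _ _ hx hy => rw [mulVec_add, hx, hy]
    | smul r x _ hx => rw [mulVec_smul, hx]
  -- elements of degree zero
  have hz0 : ∀ z ∈ G, P * z = z * P → ∀ u ∈ U0, z *ᵥ u ∈ U0 := by
    intro z hz hzP u hu
    obtain ⟨h3, h4⟩ := (hU0 u).1 hu
    refine (hU0 _).2 ⟨?_, ?_⟩
    · rw [mulVec_mulVec, hzP, ← mulVec_mulVec, h3]
    · rw [mulVec_mulVec, hc z hz hzP, ← mulVec_mulVec, h4, mulVec_smul]
  have hQP0 : ∀ u ∈ U0, Q *ᵥ u = 0 := by
    intro u hu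
    obtain ⟨h3, _⟩ := (hU0 u).1 hu
    rw [← h3, mulVec_mulVec, H.QP, zero_mulVec]
  have hstab : ∀ X ∈ G, ∀ u ∈ U0 ⊔ U1, X *ᵥ u ∈ U0 ⊔ U1 := by
    intro X hX
    have hle : U0 ⊔ U1 ≤ (U0 ⊔ U1).comap (mulVecLin X) := by
      refine sup_le ?_ ?_
      · intro u hu
        rw [Submodule.mem_comap, mulVecLin_apply, H.split hX, add_mulVec, add_mulVec]
        refine Submodule.add_mem _ (Submodule.add_mem _ ?_ ?_) ?_
        · rw [← mulVec_mulVec, hQP0 u hu, mulVec_zero]
          exact Submodule.zero_mem _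
        · refine Submodule.mem_sup_right (Submodule.subset_span ⟨_, H.grQ hX, u, hu, ?_, ?_, rfl⟩)
          · rw [← mul_assoc, ← mul_assoc, H.QQ]
          · rw [mul_assoc _ P P, H.PP]
        · exact Submodule.mem_sup_left (hz0 _ (H.gr0 hX) (H.gr0_comm X) u hu)
      · refine Submodule.span_le.2 ?_
        rintro _ ⟨y, hy, u, hu, hy1, hy2, rfl⟩
        change X *ᵥ (y *ᵥ u) ∈ U0 ⊔ U1
        have hPy : P * y = 0 := by rw [← hy1, ← mul_assoc, H.PQ, zero_mul]
        have hyQ : y * Q = 0 := by rw [← hy2, mul_assoc, H.PQ, mul_zero]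
        rw [H.split hX, add_mulVec, add_mulVec]
        refine Submodule.add_mem _ (Submodule.add_mem _ ?_ ?_) ?_
        · -- the positive part
          refine Submodule.mem_sup_left ?_
          obtain ⟨x, hx⟩ : ∃ x, x = P * X * Q := ⟨_, rfl⟩
          have hxG : x ∈ G := by rw [hx]; exact H.grP hX
          have hPx : P * x = x := by rw [hx, ← mul_assoc, ← mul_assoc, H.PP]
          have hxP : x * P = 0 := by rw [hx, mul_assoc _ Q P, H.QP, mul_zero]
          have hxu : x *ᵥ u = 0 := by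
            rw [← ((hU0 u).1 hu).1, mulVec_mulVec, hxP, zero_mulVec]
          rw [← hx]
          have h3 : x *ᵥ (y *ᵥ u) = (x * y - y * x) *ᵥ u := by
            rw [sub_mulVec, ← mulVec_mulVec, ← mulVec_mulVec, hxu, mulVec_zero, sub_zero]
          rw [h3]
          refine hz0 _ (H.br _ hxG _ hy) ?_ u hu
          have e1 : P * (x * y - y * x) = (P * x) * y - (P * y) * x := by noncomm_ring
          have e2 : (x * y - y * x) * P = x * (y * P) - y * (x * P) := by noncomm_ring
          rw [e1, e2, hPx, hPy, hy2, hxP, zero_mul, mul_zero]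
        · rw [mulVec_mulVec, mul_assoc, hPy, mul_zero, zero_mulVec]
          exact Submodule.zero_mem _
        · refine Submodule.mem_sup_right ?_
          obtain ⟨z, hz⟩ : ∃ z, z = P * X * P + Q * X * Q := ⟨_, rfl⟩
          have hzG : z ∈ G := by rw [hz]; exact H.gr0 hX
          have hzP : P * z = z * P := by rw [hz]; exact H.gr0_comm X
          have hzQ : Q * z = z * Q := by
            have h3 := H.lel z hzG
            have h4 := H.ler z hzG
            have h5 : Q * z = z - P * z := by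
              have h7 : (P + Q) * z - P * z = Q * z := by noncomm_ring
              rw [h3] at h7
              exact h7.symm
            have h6 : z * Q = z - z * P := by
              have h7 : z * (P + Q) - z * P = z * Q := by noncomm_ring
              rw [h4] at h7
              exact h7.symm
            rw [h5, h6, hzP]
          rw [← hz]
          have h3 : z *ᵥ (y *ᵥ u) = (z * y - y * z) *ᵥ u + y *ᵥ (z *ᵥ u) := by
            rw [sub_mulVec, mulVec_mulVec, mulVec_mulVec]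
            abel
          rw [h3]
          refine Submodule.add_mem _ ?_ ?_
          · refine Submodule.subset_span ⟨_, H.br _ hzG _ hy, u, hu, ?_, ?_, rfl⟩
            · rw [mul_sub, ← mul_assoc, ← mul_assoc, hzQ, hy1, mul_assoc, hy1]
            · rw [sub_mul, mul_assoc z, hy2, mul_assoc y, ← hzP, ← mul_assoc, hy2]
          · exact Submodule.subset_span ⟨_, hy, _, hz0 _ hzG hzP u hu, hy1, hy2, rfl⟩
    intro u hu
    exact hle hu
  have hunit : ∀ u ∈ U0 ⊔ U1, (P + Q) *ᵥ u = u := by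
    intro u hu
    obtain ⟨u0, hu0, u1, hu1, rfl⟩ := Submodule.mem_sup.1 hu
    have h3 : P *ᵥ u1 = 0 := by rw [← hU1Q u1 hu1, mulVec_mulVec, H.PQ, zero_mulVec]
    rw [add_mulVec, mulVec_add, mulVec_add, hU1Q u1 hu1, hQP0 u0 hu0, ((hU0 _).1 hu0).1, h3,
      add_zero, zero_add]
  have hvU : v ∈ U0 := (hU0 v).2 ⟨hPv, hcv⟩
  refine ⟨μ, ?_⟩
  rcases H.irr (U0 ⊔ U1) hunit hstab with h3 | h3
  · exfalso
    have h4 : v ∈ U0 ⊔ U1 := Submodule.mem_sup_left hvU
    rw [h3, Submodule.mem_bot] at h4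
    exact hv0 h4
  · have h4 : ∀ w, c *ᵥ w = (μ • P) *ᵥ w := by
      intro w
      have h5 : (P + Q) *ᵥ (P *ᵥ w) = P *ᵥ w := by
        rw [mulVec_mulVec, add_mul, H.PP, H.QP, add_zero]
      obtain ⟨u0, hu0, u1, hu1, h6⟩ := Submodule.mem_sup.1 (h3 _ h5)
      have h7 : P *ᵥ u1 = 0 := by rw [← hU1Q u1 hu1, mulVec_mulVec, H.PQ, zero_mulVec]
      have h8 : P *ᵥ w = u0 := by
        have h9 := congrArg (fun z => P *ᵥ z) h6
        simp only [mulVec_add, h7, add_zero, ((hU0 _).1 hu0).1, mulVec_mulVec, H.PP] at h9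
        exact h9.symm
      rw [← h2, ← mulVec_mulVec, h8, ((hU0 _).1 hu0).2, smul_mulVec, h8]
    ext i j
    have h5 := congrFun (h4 (Pi.single j 1)) i
    rwa [mulVec_single_one, mulVec_single_one] at h5

/-- The positive part of the Lie algebra. -/
def pos (G : Submodule ℂ (Matrix B B ℂ)) (P Q : Matrix B B ℂ) :
    Submodule ℂ (Matrix B B ℂ) where
  carrier := {x | x ∈ G ∧ P * x = x ∧ x * Q = x}
  zero_mem' := ⟨Submodule.zero_mem _, mul_zero _, zero_mul _⟩
  add_mem' := fun {x y} hx hy => ⟨Submodule.add_mem _ hx.1 hy.1,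
    by rw [mul_add, hx.2.1, hy.2.1], by rw [add_mul, hx.2.2, hy.2.2]⟩
  smul_mem' := fun r x hx => ⟨Submodule.smul_mem _ _ hx.1,
    by rw [Matrix.mul_smul, hx.2.1], by rw [Matrix.smul_mul, hx.2.2]⟩

theorem mem_pos {G : Submodule ℂ (Matrix B B ℂ)} {P Q x : Matrix B B ℂ} :
    x ∈ pos G P Q ↔ x ∈ G ∧ P * x = x ∧ x * Q = x := Iff.rfl

theorem star_pos {x : Matrix B B ℂ} (hx : x ∈ pos G P Q) : xᴴ ∈ pos G Q P := by
  refine ⟨H.ad x hx.1, ?_, ?_⟩
  · have h1 := congrArg conjTranspose hx.2.2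
    rwa [conjTranspose_mul, H.QH] at h1
  · have h1 := congrArg conjTranspose hx.2.1
    rwa [conjTranspose_mul, H.PH] at h1

theorem nondeg {x : Matrix B B ℂ} (hx : x ∈ pos G P Q)
    (h : ∀ y ∈ pos G Q P, trF B x y = 0) : x = 0 := by
  have h1 := h _ (H.star_pos hx)
  rw [trF_apply, trace_mul_conjTranspose_self_eq_zero_iff] at h1
  exact h1

theorem br_pos {x z : Matrix B B ℂ} (hx : x ∈ pos G P Q) (hz : z ∈ G) (hzP : P * z = z * P)
    (hzQ : Q * z = z * Q) : z * x - x * z ∈ pos G P Q := by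
  refine ⟨H.br _ hz _ hx.1, ?_, ?_⟩
  · rw [mul_sub, ← mul_assoc, hzP, mul_assoc, hx.2.1, ← mul_assoc P, hx.2.1]
  · rw [sub_mul, mul_assoc, hx.2.2, mul_assoc x, ← hzQ, ← mul_assoc, hx.2.2]

theorem comm_Q {z : Matrix B B ℂ} (hz : z ∈ G) (hzP : P * z = z * P) : Q * z = z * Q := by
  have h3 := H.lel z hz
  have h4 := H.ler z hz
  have h5 : Q * z = z - P * z := by
    have h7 : (P + Q) * z - P * z = Q * z := by noncomm_ring
    rw [h3] at h7
    exact h7.symm
  have h6 : z * Q = z - z * P := by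
    have h7 : z * (P + Q) - z * P = z * Q := by noncomm_ring
    rw [h4] at h7
    exact h7.symm
  rw [h5, h6, hzP]

/-- The Casimir elements. -/
theorem casimir : ∃ (n : ℕ) (b' : Basis (Fin n) ℂ (pos G P Q)) (x y : Fin n → Matrix B B ℂ)
    (κ κ' : ℂ), (∀ i, ((b' i : pos G P Q) : Matrix B B ℂ) = x i) ∧
      (∀ i, ∀ z : pos G P Q, trace ((z : Matrix B B ℂ) * y i) = b'.repr z i) ∧
      ∑ i, x i * y i = κ • P ∧ ∑ i, y i * x i = κ' • Q := by
  obtain ⟨n, b', y, hy, hyb, hz⟩ := exists_dual (trF B) (pos G P Q) (pos G Q P)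
    (fun x hx h => H.nondeg hx h) (fun x hx h => H.symm.nondeg hx fun y hy => by
      rw [trF_apply, trace_mul_comm]
      exact h y hy)
  obtain ⟨x, hx⟩ : ∃ x : Fin n → Matrix B B ℂ, ∀ i, ((b' i : pos G P Q) : Matrix B B ℂ) = x i :=
    ⟨_, fun _ => rfl⟩
  have hxm : ∀ i, x i ∈ pos G P Q := fun i => by rw [← hx]; exact (b' i).2
  -- the coefficients
  have hx1 : ∀ w ∈ pos G P Q, w = ∑ j, trace (w * y j) • x j := by
    intro w hw
    have h4 := congrArg Subtype.val (b'.sum_repr ⟨w, hw⟩)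
    refine h4.symm.trans ?_
    rw [Submodule.coe_sum]
    refine Finset.sum_congr rfl fun j _ => ?_
    have h5 : trace (w * y j) = b'.repr ⟨w, hw⟩ j := hyb j ⟨w, hw⟩
    rw [h5, ← hx]
    rfl
  have hy1 : ∀ w ∈ pos G Q P, w = ∑ j, trace (x j * w) • y j := by
    intro w hw
    refine (hz w hw).trans ?_
    exact Finset.sum_congr rfl fun j _ => by rw [trF_apply, hx]
  have hcomm : ∀ z ∈ G, P * z = z * P → (∑ i, x i * y i) * z = z * ∑ i, x i * y i ∧
      (∑ i, y i * x i) * z = z * ∑ i, y i * x i := by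
    intro z hzG hzP
    have hzQ := H.comm_Q hzG hzP
    exact casimir_comm x y z (fun i => hx1 _ (H.br_pos (hxm i) hzG hzP hzQ))
      (fun i => hy1 _ (H.symm.br_pos (hy i) hzG hzQ hzP))
  obtain ⟨κ, hκ⟩ := H.schur (c := ∑ i, x i * y i)
    (by
      rw [Finset.mul_sum]
      exact Finset.sum_congr rfl fun i _ => by rw [← mul_assoc, (hxm i).2.1])
    (by
      rw [Finset.sum_mul]
      exact Finset.sum_congr rfl fun i _ => by rw [mul_assoc, (hy i).2.2])
    (fun z hz hzP => (hcomm z hz hzP).1)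
  obtain ⟨κ', hκ'⟩ := H.symm.schur (c := ∑ i, y i * x i)
    (by
      rw [Finset.mul_sum]
      exact Finset.sum_congr rfl fun i _ => by rw [← mul_assoc, (hy i).2.1])
    (by
      rw [Finset.sum_mul]
      exact Finset.sum_congr rfl fun i _ => by rw [mul_assoc, (hxm i).2.2])
    (fun z hz hzQ => (hcomm z hz (H.symm.comm_Q hz hzQ)).2)
  refine ⟨n, b', x, y, κ, κ', hx, fun i z => ?_, hκ, hκ'⟩
  rw [← hyb i z, trF_apply]

/-- The positive part is a triple system. -/
theorem tri : Tri (pos G P Q) P Q a b where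
  PP := H.PP
  QQ := H.QQ
  PH := H.PH
  QH := H.QH
  le := fun x hx => ⟨hx.2.1, hx.2.2⟩
  tri := by
    intro x hx y hy z hz
    have h1 : x * z = 0 := by rw [← hx.2.2, ← hz.2.1, mul_assoc, ← mul_assoc Q, H.QP, zero_mul,
      mul_zero]
    have h2 : z * x = 0 := by rw [← hz.2.2, ← hx.2.1, mul_assoc, ← mul_assoc Q, H.QP, zero_mul,
      mul_zero]
    have h3 := H.br _ (H.br _ hx.1 _ (H.ad _ hy.1)) _ hz.1
    have h4 : (x * yᴴ - yᴴ * x) * z - z * (x * yᴴ - yᴴ * x) = x * yᴴ * z + z * yᴴ * x -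
        yᴴ * (x * z) - (z * x) * yᴴ := by noncomm_ring
    rw [h4, h1, h2, mul_zero, zero_mul, sub_zero, sub_zero] at h3
    refine ⟨h3, ?_, ?_⟩
    · rw [mul_add, ← mul_assoc, ← mul_assoc, hx.2.1, ← mul_assoc, ← mul_assoc, hz.2.1]
    · rw [add_mul, mul_assoc _ z, hz.2.2, mul_assoc _ x, hx.2.2]
  trP := H.trP
  trQ := H.trQ
  cas := by
    intro p q T hp hq hT
    obtain ⟨n, b', x, y, κ, κ', hx, hy, hκ, hκ'⟩ := H.casimir
    have h1 : LinearMap.trace ℂ (pos G P Q) T = ∑ i, trace ((p * x i + x i * q) * y i) := by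
      rw [LinearMap.trace_eq_matrix_trace ℂ b', Matrix.trace]
      refine Finset.sum_congr rfl fun i _ => ?_
      rw [diag_apply, LinearMap.toMatrix_apply, ← hy, hT, hx]
    have h2 : ∑ i, trace ((p * x i + x i * q) * y i) = κ * trace p + κ' * trace q := by
      have h3 : ∀ i, trace ((p * x i + x i * q) * y i) =
          trace (p * (x i * y i)) + trace (q * (y i * x i)) := by
        intro i
        rw [add_mul, trace_add, mul_assoc, mul_assoc, trace_mul_comm (x i), mul_assoc]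
      rw [Finset.sum_congr rfl fun i _ => h3 i, Finset.sum_add_distrib, ← trace_sum, ← trace_sum,
        ← Finset.mul_sum, ← Finset.mul_sum, hκ, hκ', Matrix.mul_smul, Matrix.mul_smul, trace_smul,
        trace_smul, trace_mul_comm, hp, hq, smul_eq_mul, smul_eq_mul]
    have hn : ∑ i, trace (x i * y i) = (n : ℂ) := by
      have h3 : ∀ i, trace (x i * y i) = 1 := by
        intro i
        have h4 := hy i (b' i)
        rw [hx] at h4
        rw [h4, Basis.repr_self, Finsupp.single_eq_same]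
      rw [Finset.sum_congr rfl fun i _ => h3 i]
      simp
    have h3 : κ * a = n := by
      rw [← hn, ← trace_sum, hκ, trace_smul, H.trP, smul_eq_mul]
    have h4 : κ' * b = n := by
      have h5 : ∑ i, trace (x i * y i) = trace (∑ i, y i * x i) := by
        rw [trace_sum]
        exact Finset.sum_congr rfl fun i _ => trace_mul_comm _ _
      rw [← hn, h5, hκ', trace_smul, H.trQ, smul_eq_mul]
    have h5 : finrank ℂ (pos G P Q) = n := by
      rw [finrank_eq_card_basis b', Fintype.card_fin]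
    rw [h1, h2, h5]
    linear_combination (b * trace p) * h3 + (a * trace q) * h4

/-- **The key theorem**: the Lie algebra contains all matrices of the positive part. -/
theorem full (ha : 0 < a) (hb : 0 < b) (hcop : Nat.Coprime a b) (Y : Matrix B B ℂ) :
    P * Y * Q ∈ G := by
  have hne : pos G P Q ≠ ⊥ := by
    intro h0
    have h1 : ∀ X ∈ G, P * X * Q = 0 := by
      intro X hX
      have h2 : P * X * Q ∈ pos G P Q := ⟨H.grP hX, by rw [← mul_assoc, ← mul_assoc, H.PP],
        by rw [mul_assoc _ Q Q, H.QQ]⟩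
      rwa [h0, Submodule.mem_bot] at h2
    have h2 : ∀ X ∈ G, Q * X * P = 0 := by
      intro X hX
      have h3 := congrArg conjTranspose (h1 _ (H.ad _ hX))
      rw [conjTranspose_mul, conjTranspose_mul, H.PH, H.QH, conjTranspose_conjTranspose,
        conjTranspose_zero, ← mul_assoc] at h3
      exact h3
    let U : Submodule ℂ (B → ℂ) :=
      { carrier := {u | P *ᵥ u = u}
        zero_mem' := mulVec_zero _
        add_mem' := fun {x y} hx hy => by
          change P *ᵥ (x + y) = x + y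
          rw [mulVec_add, hx, hy]
        smul_mem' := fun r x hx => by
          change P *ᵥ (r • x) = r • x
          rw [mulVec_smul, hx] }
    have hU : ∀ u, u ∈ U ↔ P *ᵥ u = u := fun _ => Iff.rfl
    have hQu : ∀ u, u ∈ U → Q *ᵥ u = 0 := by
      intro u hu
      rw [← (hU u).1 hu, mulVec_mulVec, H.QP, zero_mulVec]
    rcases H.irr U (fun u hu => by rw [add_mulVec, (hU u).1 hu, hQu u hu, add_zero]) (by
      intro X hX u hu
      rw [hU]
      have h3 : X *ᵥ u = P *ᵥ (X *ᵥ (P *ᵥ u)) := by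
        nth_rewrite 1 [H.split hX, h1 X hX, h2 X hX]
        rw [add_zero, zero_add, add_mulVec, ← mulVec_mulVec u (Q * X) Q, hQu u hu, mulVec_zero,
          add_zero, mulVec_mulVec, mulVec_mulVec]
      rw [(hU u).1 hu] at h3
      exact h3.symm) with h3 | h3
    · have h4 : P = 0 := by
        ext i j
        have h5 : P *ᵥ Pi.single j 1 ∈ U := by rw [hU, mulVec_mulVec, H.PP]
        rw [h3, Submodule.mem_bot, mulVec_single_one] at h5
        exact congrFun h5 i
      have h5 := H.trP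
      rw [h4, trace_zero] at h5
      have h6 : a = 0 := by exact_mod_cast h5.symm
      omega
    · have h4 : Q = 0 := by
        ext i j
        have h5 : (P + Q) *ᵥ (Q *ᵥ Pi.single j 1) = Q *ᵥ Pi.single j 1 := by
          rw [mulVec_mulVec, add_mul, H.PQ, H.QQ, zero_add]
        have h6 := hQu _ (h3 _ h5)
        rw [mulVec_mulVec, H.QQ, mulVec_single_one] at h6
        exact congrFun h6 i
      have h5 := H.trQ
      rw [h4, trace_zero] at h5
      have h6 : b = 0 := by exact_mod_cast h5.symm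
      omega
  have h1 := H.tri.full hne hcop
  have h2 : P * Y * Q ∈ LinearMap.range (lr P Q) := ⟨Y, rfl⟩
  rw [← h1] at h2
  exact h2.1

end Lie

end Pool.Agent.Y4.G
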