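import Mathlib
import Pool.Agent.Y4.G.Cas
import Pool.Agent.Y4.Max

/-!
# The Lie algebra at one place
-/

set_option linter.unusedSectionVars false

namespace Pool.Agent.Y4.G

open Matrix Module Pool.Agent.H204R3.CM Pool.Agent.H194R3.CM Pool.Agent.W437.HC
  Pool.Agent.W437.HD Pool.Agent.W437.HQ Pool.Agent.W548.Odd Pool.Agent.TH125

variable {g : ℕ} {Z : Matrix (Fin g) (Fin g) ℂ} {E : Type*} [Field E] [NumberField E]
  {ι : E →+* Matrix (Fin g ⊕ Fin g) (Fin g ⊕ Fin g) ℚ} {φ0 : E →+* ℂ}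

/-- The adjoint with an explicit hermitian form. -/
theorem hermZ' {W : Set (Matrix (Fin g) (Fin g) ℂ)} (hW : IsPer W) (hZW : Z ∈ W) :
    ∃ S Si, Herm (DZ '' W) (Om g ℂ) S Si ∧ Sᴴ * S = Om g ℂ * cm (JR Z) := by
  obtain ⟨hZ, hpos⟩ := hW Z hZW
  have hu : IsUnit (imM Z).det := hpos.isUnit.map Matrix.detMonoidHom
  have hDm : DZ Z ∈ LA (DZ '' W) := LA_self ⟨Z, hZW, rfl⟩
  obtain ⟨y, hy, hyy⟩ := exists_sqrt (OmJ_posDef hZ hpos)
  rw [star_eq_conjTranspose, conjTranspose_eq_transpose_of_trivial] at hyy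
  obtain ⟨yi, hyyi⟩ : ∃ yi, y * yi = 1 := hy.exists_right_inv
  have hSSi : cm y * cm yi = 1 := by rw [← cm_mul, hyyi, cm_one]
  have hDD : ∀ d ∈ DZ '' W, d * d = 1 := by
    rintro _ ⟨Z', hZ', rfl⟩
    exact DZ_sq ((hW Z' hZ').2.isUnit.map Matrix.detMonoidHom)
  have hOS : Om g ℂ * cm (JR Z) = (cm y)ᵀ * cm y := by
    rw [← cm_Om, ← cm_mul, hyy, cm_mul, cm_transpose]
  refine ⟨cm y, cm yi, ⟨Om_transpose ℂ, Om_sq ℂ, hDD, fun X hX => sp_LA hW hX, hSSi, ?_⟩, by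
    rw [hOS, cm_conjT]⟩
  intro X hX
  have hSiS : cm yi * cm y = 1 := mul_eq_one_comm.1 hSSi
  obtain ⟨X', hX'⟩ : ∃ X', X' = X.map (starRingEnd ℂ) := ⟨_, rfl⟩
  have hX'm : X' ∈ LA (DZ '' W) := by
    rw [hX']
    exact LA_aut (starRingEnd ℂ) hX
  have hXH : Xᴴ = X'ᵀ := by
    rw [hX']
    rfl
  have h1 := LA_invol hX'm hDm (DZ_sq hu)
  have hJD : cm (JR Z) = Complex.I • DZ Z := by
    change _ = Complex.I • ((-Complex.I) • cm (JR Z))
    rw [smul_smul, show Complex.I * -Complex.I = 1 by simp, one_smul]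
  have h2 : cm (JR Z) * X' * cm (JR Z) = -(DZ Z * X' * DZ Z) := by
    rw [hJD, smul_mul_assoc, smul_mul_assoc, mul_smul_comm, smul_smul, Complex.I_mul_I,
      neg_one_smul]
  have h3 : cm (JR Z) * X' * cm (JR Z) ∈ LA (DZ '' W) := by
    rw [h2]
    exact Submodule.neg_mem _ h1
  have hJ2 : cm (JR Z) * cm (JR Z) = -1 := by
    rw [← cm_mul, JR_sq hu, cm_neg, cm_one]
  have hsp := sp_LA hW hX'm
  have hOX : Om g ℂ * X' = -(X'ᵀ * Om g ℂ) := eq_neg_of_add_eq_zero_right hsp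
  have hJ1 : cm (JR Z) = -(Om g ℂ * ((cm y)ᵀ * cm y)) := by
    rw [← hOS, ← mul_assoc, Om_sq, neg_one_mul, neg_neg]
  have hJO : cm (JR Z) = cm yi * (cm yi)ᵀ * (-(Om g ℂ)) := by
    have e1 : ((cm y)ᵀ * cm y) * cm (JR Z) = -Om g ℂ := by
      rw [← hOS, mul_assoc, hJ2, mul_neg_one]
    have e2 : (cm yi)ᵀ * (cm y)ᵀ = 1 := by rw [← transpose_mul, hSSi, transpose_one]
    have e3 : cm yi * (cm yi)ᵀ * (((cm y)ᵀ * cm y) * cm (JR Z)) = cm (JR Z) := by
      have : cm yi * (cm yi)ᵀ * (((cm y)ᵀ * cm y) * cm (JR Z)) =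
          cm yi * (((cm yi)ᵀ * (cm y)ᵀ) * cm y) * cm (JR Z) := by noncomm_ring
      rw [this, e2, one_mul, hSiS, one_mul]
    rw [← e1, e3]
  have h4 : cm (JR Z) * X' * cm (JR Z) = cm yi * (cm yi)ᵀ * X'ᵀ * ((cm y)ᵀ * cm y) := by
    have e1 : cm (JR Z) * X' * cm (JR Z) =
        (cm yi * (cm yi)ᵀ * (-(Om g ℂ))) * X' * (-(Om g ℂ * ((cm y)ᵀ * cm y))) := by
      rw [← hJO, ← hJ1]
    have e2 : (cm yi * (cm yi)ᵀ * (-(Om g ℂ))) * X' * (-(Om g ℂ * ((cm y)ᵀ * cm y))) =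
        (cm yi * (cm yi)ᵀ) * (Om g ℂ * X') * (Om g ℂ * ((cm y)ᵀ * cm y)) := by noncomm_ring
    rw [e1, e2, hOX]
    have e3 : (cm yi * (cm yi)ᵀ) * -(X'ᵀ * Om g ℂ) * (Om g ℂ * ((cm y)ᵀ * cm y)) =
        -((cm yi * (cm yi)ᵀ) * X'ᵀ * (Om g ℂ * Om g ℂ) * ((cm y)ᵀ * cm y)) := by noncomm_ring
    rw [e3, Om_sq]
    noncomm_ring
  rw [hXH, cm_conjT, cm_conjT, ← h4]
  exact h3

/-- The second projector. -/
noncomputable def qr (Z : Matrix (Fin g) (Fin g) ℂ)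
    (ι : E →+* Matrix (Fin g ⊕ Fin g) (Fin g ⊕ Fin g) ℚ) (φ : E →+* ℂ) :
    Matrix (Fin g ⊕ Fin g) (Fin g ⊕ Fin g) ℂ := ide ι φ - pr Z ι φ

theorem sa_conj {n : Type*} [Fintype n] [DecidableEq n] {S Si R X : Matrix n n ℂ}
    (hSSi : S * Si = 1) (hR : Sᴴ * S = R) (h : Xᴴ * R = R * X) :
    (S * X * Si)ᴴ = S * X * Si := by
  rw [conjTranspose_mul, conjTranspose_mul]
  have h1 : Siᴴ * Sᴴ = 1 := by rw [← conjTranspose_mul, hSSi, conjTranspose_one]
  calc Siᴴ * (Xᴴ * Sᴴ) = Siᴴ * (Xᴴ * Sᴴ) * (S * Si) := by rw [hSSi, mul_one]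
  _ = Siᴴ * (Xᴴ * (Sᴴ * S)) * Si := by noncomm_ring
  _ = Siᴴ * ((Sᴴ * S) * X) * Si := by rw [hR, h]
  _ = (Siᴴ * Sᴴ) * S * X * Si := by noncomm_ring
  _ = S * X * Si := by rw [h1, one_mul]

variable (A : Act Z ι)

include A in
theorem ide_sa [Nonempty (Fin g)] (φ : E →+* ℂ) :
    (ide ι φ)ᴴ * (Om g ℂ * cm (JR Z)) = (Om g ℂ * cm (JR Z)) * ide ι φ := by
  have h1 : (ide ι φ)ᴴ = (ide ι (bar φ))ᵀ := by
    have h2 : (ide ι φ).map (starRingEnd ℂ) = ide ι (bar φ) := ide_map ι φ _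
    rw [← h2]
    rfl
  have hJD : cm (JR Z) = Complex.I • DZ Z := by
    change _ = Complex.I • ((-Complex.I) • cm (JR Z))
    rw [smul_smul, show Complex.I * -Complex.I = 1 by simp, one_smul]
  rw [h1, ← mul_assoc, A.ide_Om, bar_bar, mul_assoc, mul_assoc, hJD, Matrix.smul_mul,
    Matrix.mul_smul, A.comm_D_ide]

include A in
theorem D_sa : (DZ Z)ᴴ * (Om g ℂ * cm (JR Z)) = (Om g ℂ * cm (JR Z)) * DZ Z := by
  have h1 : (DZ Z)ᴴ = -(DZ Z)ᵀ := by
    have h2 := DZ_conj (Z := Z)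
    have h3 : (DZ Z)ᴴ = ((DZ Z).map (starRingEnd ℂ))ᵀ := rfl
    rw [h3, h2, transpose_neg]
  have hJD : cm (JR Z) = Complex.I • DZ Z := by
    change _ = Complex.I • ((-Complex.I) • cm (JR Z))
    rw [smul_smul, show Complex.I * -Complex.I = 1 by simp, one_smul]
  rw [h1, neg_mul, ← mul_assoc, DZ_Om A.symm, neg_mul, neg_neg, mul_assoc, mul_assoc, hJD,
    Matrix.smul_mul, Matrix.mul_smul]

include A in
theorem pr_sa [Nonempty (Fin g)] (φ : E →+* ℂ) :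
    (pr Z ι φ)ᴴ * (Om g ℂ * cm (JR Z)) = (Om g ℂ * cm (JR Z)) * pr Z ι φ := by
  have h1 := ide_sa A φ
  have h2 := D_sa A
  unfold pr
  obtain ⟨R, hR⟩ : ∃ R, R = Om g ℂ * cm (JR Z) := ⟨_, rfl⟩
  rw [← hR] at h1 h2 ⊢
  have h3 : star (2 : ℂ)⁻¹ = (2 : ℂ)⁻¹ := by
    rw [star_inv₀]
    simp
  rw [conjTranspose_smul, h3, conjTranspose_mul, conjTranspose_add, conjTranspose_one,
    Matrix.smul_mul, Matrix.mul_smul, mul_assoc, add_mul, one_mul, h2]
  congr 1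
  rw [mul_add, h1, ← mul_assoc (ide ι φ)ᴴ, h1, add_mul, one_mul, A.comm_D_ide, mul_add, mul_assoc]

section

variable (A : Act Z ι)
include A

theorem ide_qr (φ : E →+* ℂ) : ide ι φ * qr Z ι φ = qr Z ι φ := by
  unfold qr
  rw [mul_sub, ide_idem, A.ide_pr]

theorem qr_ide (φ : E →+* ℂ) : qr Z ι φ * ide ι φ = qr Z ι φ := by
  unfold qr
  rw [sub_mul, ide_idem, A.pr_ide]

theorem pr_qr (φ : E →+* ℂ) : pr Z ι φ * qr Z ι φ = 0 := by
  unfold qr
  rw [mul_sub, A.pr_ide, A.pr_idem, sub_self]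

theorem qr_pr (φ : E →+* ℂ) : qr Z ι φ * pr Z ι φ = 0 := by
  unfold qr
  rw [sub_mul, A.ide_pr, A.pr_idem, sub_self]

theorem qr_idem (φ : E →+* ℂ) : qr Z ι φ * qr Z ι φ = qr Z ι φ := by
  nth_rewrite 1 [qr]
  rw [sub_mul, ide_qr A, pr_qr A, sub_zero]

theorem trace_qr (φ : E →+* ℂ) : trace (qr Z ι φ) = (mult Z ι (bar φ) : ℂ) := by
  unfold qr
  rw [trace_sub, A.trace_ide_eq, A.trace_pr]
  push_cast
  ring

theorem pr_add_qr (φ : E →+* ℂ) : pr Z ι φ + qr Z ι φ = ide ι φ := by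
  unfold qr
  abel

theorem pr_sub_qr (φ : E →+* ℂ) : pr Z ι φ - qr Z ι φ = DZ Z * ide ι φ := by
  have h1 : pr Z ι φ - qr Z ι φ = (2 : ℂ) • pr Z ι φ - ide ι φ := by
    unfold qr
    rw [two_smul]
    abel
  rw [h1, pr, smul_smul, mul_inv_cancel₀ two_ne_zero, one_smul, add_mul, one_mul]
  abel

theorem qr_sa [Nonempty (Fin g)] (φ : E →+* ℂ) :
    (qr Z ι φ)ᴴ * (Om g ℂ * cm (JR Z)) = (Om g ℂ * cm (JR Z)) * qr Z ι φ := by
  unfold qr
  rw [conjTranspose_sub, sub_mul, mul_sub, ide_sa A, pr_sa A]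

/-- The eigenspace is irreducible if the field is its own centralizer. -/
theorem irr_place (hmax : ∀ u : Matrix (Fin g ⊕ Fin g) (Fin g ⊕ Fin g) ℚ,
    qm u * DZ Z = DZ Z * qm u → (∀ e, u * ι e = ι e * u) → ∃ e, u = ι e) {S Si}
    (H : Herm (DZ '' {Z}) (Om g ℂ) S Si) (φ : E →+* ℂ)
    (U : Submodule ℂ (Fin g ⊕ Fin g → ℂ)) (hU : ∀ u ∈ U, ide ι φ *ᵥ u = u)
    (hs : ∀ X ∈ LA (DZ '' {Z}), ∀ u ∈ U, X *ᵥ u ∈ U) :
    U = ⊥ ∨ ∀ u, ide ι φ *ᵥ u = u → u ∈ U := by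
  obtain ⟨N, hc, hN⟩ := H.exists_compl U hs
  have hz : ∀ w ∈ N, U.projection N hc w = 0 :=
    fun w hw => (Submodule.projection_apply_eq_zero_iff hc).2 hw
  have hm : ∀ w, U.projection N hc w ∈ U := fun w => Submodule.projection_apply_mem hc w
  have hid : ∀ w ∈ U, U.projection N hc w = w :=
    fun w hw => Submodule.projection_apply_of_mem_left hc hw
  obtain ⟨p, hp⟩ : ∃ p : Matrix (Fin g ⊕ Fin g) (Fin g ⊕ Fin g) ℂ,
      ∀ w, p *ᵥ w = U.projection N hc w :=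
    ⟨LinearMap.toMatrix' (U.projection N hc), fun w => LinearMap.toMatrix'_mulVec _ _⟩
  have hcomm : ∀ X ∈ LA (DZ '' {Z}), p * X = X * p := by
    intro X hX
    have h0 : ∀ v, (p * X) *ᵥ v = (X * p) *ᵥ v := by
      intro v
      rw [← mulVec_mulVec, ← mulVec_mulVec, hp, hp]
      have h1 : v - U.projection N hc v ∈ N := by
        rw [← Submodule.projection_apply_eq_zero_iff hc, map_sub, hid _ (hm v), sub_self]
      have h2 : X *ᵥ v = X *ᵥ (U.projection N hc v) + X *ᵥ (v - U.projection N hc v) := by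
        rw [← mulVec_add, add_sub_cancel]
      have h3 : X *ᵥ U.projection N hc v ∈ U := hs X hX _ (hm v)
      rw [h2, map_add, hid _ h3, hz _ (hN X hX _ h1), add_zero]
    ext i j
    have h5 := congrFun (h0 (Pi.single j 1)) i
    rwa [mulVec_single_one, mulVec_single_one] at h5
  have hL : ∀ X ∈ LA (DZ '' {Z}), X ∈ lieM (DZ Z) ℂ := by
    intro X hX
    refine LA_le_lieM ?_ hX
    rintro _ ⟨Z', hZ', rfl⟩
    rw [Set.mem_singleton_iff.1 hZ']
    exact D_mem _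
  obtain ⟨c, hcdef⟩ : ∃ c, c = ide ι φ * p * ide ι φ := ⟨_, rfl⟩
  have hcm : InCm (DZ '' {Z}) c := by
    intro X hX
    have h1 := A.comm_L_ide (hL X hX) φ
    rw [hcdef]
    calc ide ι φ * p * ide ι φ * X = ide ι φ * p * (ide ι φ * X) := by noncomm_ring
    _ = ide ι φ * (p * X) * ide ι φ := by rw [← h1]; noncomm_ring
    _ = (ide ι φ * X) * p * ide ι φ := by rw [hcomm X hX]; noncomm_ring
    _ = X * (ide ι φ * p * ide ι φ) := by rw [← h1]; noncomm_ring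
  have hciC : ∀ e, c * iC ι e = iC ι e * c := by
    intro e
    rw [hcdef, mul_assoc, ide_mul_iC, Matrix.mul_smul, ← mul_assoc, ← mul_assoc, iC_mul_ide,
      Matrix.smul_mul, Matrix.smul_mul]
  obtain ⟨lam, hlam⟩ := span_of_max hmax hcm hciC
  have hc1 : c = lam φ • ide ι φ := by
    have h1 : c = c * ide ι φ := by rw [hcdef, mul_assoc _ (ide ι φ) (ide ι φ), ide_idem]
    rw [h1, hlam, Finset.sum_mul, Finset.sum_eq_single φ]
    · rw [Matrix.smul_mul, ide_idem]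
    · intro ψ _ hne
      rw [Matrix.smul_mul, ide_mul_ne ι hne, smul_zero]
    · intro h
      exact absurd (Finset.mem_univ _) h
  have hcu : ∀ u, ide ι φ *ᵥ u = u → c *ᵥ u = ide ι φ *ᵥ (p *ᵥ u) := by
    intro u hu
    rw [hcdef, ← mulVec_mulVec, hu, mulVec_mulVec]
  by_cases hU0 : U = ⊥
  · exact Or.inl hU0
  right
  obtain ⟨u, hu, hu0⟩ := (Submodule.ne_bot_iff U).1 hU0
  have hlam1 : lam φ = 1 := by
    have h1 := hcu u (hU u hu)
    rw [hp, hid u hu, hU u hu, hc1, smul_mulVec, hU u hu] at h1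
    have h2 : (lam φ - 1) • u = 0 := by rw [sub_smul, h1, one_smul, sub_self]
    exact sub_eq_zero.1 ((smul_eq_zero.1 h2).resolve_right hu0)
  intro w hw
  have h1 := hcu w hw
  rw [hc1, hlam1, one_smul, hw, hp, hU _ (hm w)] at h1
  rw [h1]
  exact hm w

/-- The Lie algebra at a place satisfies the hypotheses of the key theorem. -/
theorem lie_place [Nonempty (Fin g)] (hmax : ∀ u : Matrix (Fin g ⊕ Fin g) (Fin g ⊕ Fin g) ℚ,
    qm u * DZ Z = DZ Z * qm u → (∀ e, u * ι e = ι e * u) → ∃ e, u = ι e) (φ : E →+* ℂ) :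
    ∃ S Si : Matrix (Fin g ⊕ Fin g) (Fin g ⊕ Fin g) ℂ, S * Si = 1 ∧ Si * S = 1 ∧
      Lie ((LA (DZ '' {Z})).map (lr S (ide ι φ * Si))) (S * pr Z ι φ * Si) (S * qr Z ι φ * Si)
        (mult Z ι φ) (mult Z ι (bar φ)) := by
  have hW : IsPer {Z} := by
    intro Z' hZ'
    rw [Set.mem_singleton_iff.1 hZ']
    exact ⟨A.symm, A.pos⟩
  obtain ⟨S, Si, H, hR⟩ := hermZ' hW (Set.mem_singleton Z)
  have hSSi := H.SSi
  have hSiS := H.SiS
  have hL : ∀ X ∈ LA (DZ '' {Z}), X ∈ lieM (DZ Z) ℂ := by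
    intro X hX
    refine LA_le_lieM ?_ hX
    rintro _ ⟨Z', hZ', rfl⟩
    rw [Set.mem_singleton_iff.1 hZ']
    exact D_mem _
  have hce : ∀ X ∈ LA (DZ '' {Z}), X * ide ι φ = ide ι φ * X := fun X hX =>
    A.comm_L_ide (hL X hX) φ
  have hD : DZ Z ∈ LA (DZ '' {Z}) := LA_self ⟨Z, rfl, rfl⟩
  have hcj : ∀ X Y : Matrix (Fin g ⊕ Fin g) (Fin g ⊕ Fin g) ℂ,
      (S * X * Si) * (S * Y * Si) = S * (X * Y) * Si := by
    intro X Y
    calc (S * X * Si) * (S * Y * Si) = S * X * (Si * S) * Y * Si := by noncomm_ring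
    _ = _ := by rw [hSiS]; noncomm_ring
  have hlr : ∀ X, lr S (ide ι φ * Si) X = S * (X * ide ι φ) * Si := by
    intro X
    rw [lr_apply]
    noncomm_ring
  have hadd : S * pr Z ι φ * Si + S * qr Z ι φ * Si = S * ide ι φ * Si := by
    rw [← pr_add_qr A φ]
    noncomm_ring
  refine ⟨S, Si, hSSi, hSiS, ?_⟩
  exact {
    br := by
      rintro _ ⟨X, hX, rfl⟩ _ ⟨Y, hY, rfl⟩
      refine ⟨X * Y - Y * X, LA_br hX hY, ?_⟩
      rw [hlr, hlr, hlr, hcj, hcj]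
      have h1 : X * ide ι φ * (Y * ide ι φ) = X * Y * ide ι φ := by
        rw [mul_assoc, ← mul_assoc (ide ι φ), ← hce Y hY, mul_assoc Y, ide_idem, mul_assoc]
      have h2 : Y * ide ι φ * (X * ide ι φ) = Y * X * ide ι φ := by
        rw [mul_assoc, ← mul_assoc (ide ι φ), ← hce X hX, mul_assoc X, ide_idem, mul_assoc]
      rw [h1, h2]
      noncomm_ring
    ad := by
      rintro _ ⟨X, hX, rfl⟩
      refine ⟨Si * Siᴴ * Xᴴ * (Sᴴ * S), H.adj X hX, ?_⟩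
      have hX' := H.adj X hX
      rw [hlr, hlr, hce _ hX']
      have h1 := sa_conj hSSi hR (ide_sa A φ)
      have h2 : S * (Si * Siᴴ * Xᴴ * (Sᴴ * S)) * Si = (S * X * Si)ᴴ := by
        rw [conjTranspose_mul, conjTranspose_mul]
        calc S * (Si * Siᴴ * Xᴴ * (Sᴴ * S)) * Si = (S * Si) * Siᴴ * Xᴴ * Sᴴ * (S * Si) := by
              noncomm_ring
        _ = _ := by rw [hSSi]; noncomm_ring
      rw [← hcj, h2, ← h1, ← conjTranspose_mul, hcj]
    PP := by rw [hcj, A.pr_idem]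
    QQ := by rw [hcj, qr_idem A]
    PH := sa_conj hSSi hR (pr_sa A φ)
    QH := sa_conj hSSi hR (qr_sa A φ)
    PQ := by rw [hcj, pr_qr A, mul_zero, zero_mul]
    QP := by rw [hcj, qr_pr A, mul_zero, zero_mul]
    D := by
      refine ⟨DZ Z, hD, ?_⟩
      rw [hlr, ← pr_sub_qr A]
      noncomm_ring
    lel := by
      rintro _ ⟨X, hX, rfl⟩
      have h1 : ide ι φ * (X * ide ι φ) = X * ide ι φ := by
        rw [← mul_assoc, ← hce X hX, mul_assoc, ide_idem]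
      rw [hadd, hlr, hcj, h1]
    ler := by
      rintro _ ⟨X, hX, rfl⟩
      rw [hadd, hlr, hcj, mul_assoc X, ide_idem]
    irr := by
      intro U hU hs
      rw [hadd] at hU ⊢
      have hcv : ∀ u, S *ᵥ (Si *ᵥ u) = u := fun u => by rw [mulVec_mulVec, hSSi, one_mulVec]
      have hcv' : ∀ u, Si *ᵥ (S *ᵥ u) = u := fun u => by rw [mulVec_mulVec, hSiS, one_mulVec]
      have hU1 : ∀ u ∈ U, ide ι φ *ᵥ (Si *ᵥ u) = Si *ᵥ u := by
        intro u hu
        have h1 := congrArg (fun z => Si *ᵥ z) (hU u hu)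
        simp only [mulVec_mulVec] at h1
        have h2 : Si * (S * ide ι φ * Si) = ide ι φ * Si := by
          rw [← mul_assoc, ← mul_assoc, hSiS, one_mul]
        rw [h2, ← mulVec_mulVec] at h1
        exact h1
      rcases irr_place A hmax H φ (U.comap (mulVecLin S)) (by
        intro u hu
        have h1 := hU1 _ (Submodule.mem_comap.1 hu)
        rw [mulVecLin_apply, hcv'] at h1
        exact h1) (by
        intro X hX u hu
        rw [Submodule.mem_comap, mulVecLin_apply] at hu ⊢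
        have h1 := hs _ ⟨X, hX, rfl⟩ _ hu
        rw [hlr] at h1
        have h2 : (S * (X * ide ι φ) * Si) *ᵥ (S *ᵥ u) = S *ᵥ (X *ᵥ (ide ι φ *ᵥ u)) := by
          rw [mulVec_mulVec, mulVec_mulVec, mulVec_mulVec, mul_assoc (S * (X * ide ι φ)), hSiS,
            mul_one, mul_assoc S X]
        have h3 := hU1 _ hu
        rw [hcv'] at h3
        rw [h2, h3] at h1
        exact h1) with h1 | h1
      · left
        rw [Submodule.eq_bot_iff] at h1 ⊢
        intro u hu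
        have h2 := h1 (Si *ᵥ u) (by
          rw [Submodule.mem_comap, mulVecLin_apply, hcv]
          exact hu)
        rw [← hcv u, h2, mulVec_zero]
      · right
        intro u hu
        have h2 := congrArg (fun z => Si *ᵥ z) hu
        simp only [mulVec_mulVec] at h2
        have h3 : Si * (S * ide ι φ * Si) = ide ι φ * Si := by
          rw [← mul_assoc, ← mul_assoc, hSiS, one_mul]
        rw [h3, ← mulVec_mulVec] at h2
        have h4 := h1 _ h2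
        rw [Submodule.mem_comap, mulVecLin_apply, hcv] at h4
        exact h4
    trP := by rw [trace_mul_comm, ← mul_assoc, hSiS, one_mul, A.trace_pr]
    trQ := by rw [trace_mul_comm, ← mul_assoc, hSiS, one_mul, trace_qr A] }

/-- **Full positive part** at a place with coprime multiplicities. -/
theorem full_place [Nonempty (Fin g)] (hmax : ∀ u : Matrix (Fin g ⊕ Fin g) (Fin g ⊕ Fin g) ℚ,
    qm u * DZ Z = DZ Z * qm u → (∀ e, u * ι e = ι e * u) → ∃ e, u = ι e) {φ : E →+* ℂ}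
    (h1 : 0 < mult Z ι φ) (h2 : 0 < mult Z ι (bar φ))
    (hcop : Nat.Coprime (mult Z ι φ) (mult Z ι (bar φ)))
    (Y : Matrix (Fin g ⊕ Fin g) (Fin g ⊕ Fin g) ℂ) :
    (∃ X ∈ LA (DZ '' {Z}), X * ide ι φ = pr Z ι φ * Y * qr Z ι φ) ∧
      ∃ X ∈ LA (DZ '' {Z}), X * ide ι φ = qr Z ι φ * Y * pr Z ι φ := by
  obtain ⟨S, Si, hSSi, hSiS, H⟩ := lie_place A hmax φ
  have key : ∀ V V' : Matrix (Fin g ⊕ Fin g) (Fin g ⊕ Fin g) ℂ, S * V * Si = S * V' * Si →
      V = V' := by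
    intro V V' h
    have h3 := congrArg (fun W => Si * W * S) h
    have h4 : ∀ W : Matrix (Fin g ⊕ Fin g) (Fin g ⊕ Fin g) ℂ, Si * (S * W * Si) * S = W := by
      intro W
      calc Si * (S * W * Si) * S = (Si * S) * W * (Si * S) := by noncomm_ring
      _ = W := by rw [hSiS, one_mul, mul_one]
    simp only [h4] at h3
    exact h3
  have hlr : ∀ X, lr S (ide ι φ * Si) X = S * (X * ide ι φ) * Si := by
    intro X
    rw [lr_apply]
    noncomm_ring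
  constructor
  · obtain ⟨X, hX, h3⟩ := H.full h1 h2 hcop (S * Y * Si)
    refine ⟨X, hX, key _ _ ?_⟩
    rw [← hlr]
    refine h3.trans ?_
    calc S * pr Z ι φ * Si * (S * Y * Si) * (S * qr Z ι φ * Si) =
        S * pr Z ι φ * (Si * S) * Y * (Si * S) * qr Z ι φ * Si := by noncomm_ring
    _ = _ := by rw [hSiS]; noncomm_ring
  · obtain ⟨X, hX, h3⟩ := H.symm.full h2 h1 hcop.symm (S * Y * Si)
    refine ⟨X, hX, key _ _ ?_⟩
    rw [← hlr]
    refine h3.trans ?_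
    calc S * qr Z ι φ * Si * (S * Y * Si) * (S * pr Z ι φ * Si) =
        S * qr Z ι φ * (Si * S) * Y * (Si * S) * pr Z ι φ * Si := by noncomm_ring
    _ = _ := by rw [hSiS]; noncomm_ring

end

end Pool.Agent.Y4.G
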